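import Pool.Agent.H14.KG.Def

/-! # The determinant of a pencil near an invertible value -/

set_option autoImplicit false

universe u

namespace Pool.Agent.H14.KG

open Matrix

/-- If `M(x) = M₀ + U diag(ψ(x)) V` is invertible at `x = a`, then
`det M(x) = det M(a) * det (1 + diag(ψ(x) - ψ(a)) K)` with a constant matrix `K`. -/
theorem det_pencil_eq {Ω τ κ : Type*} [Field Ω] [Fintype κ] [DecidableEq κ] {r : ℕ}
    (M₀ : Matrix (Fin r) (Fin r) Ω) (U : Matrix (Fin r) κ Ω) (V : Matrix κ (Fin r) Ω)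
    (ψ : κ → MvPolynomial τ Ω) (a : τ → Ω)
    (ha : (M₀ + U * diagonal (fun c => MvPolynomial.eval a (ψ c)) * V).det ≠ 0) :
    ∃ K : Matrix κ κ Ω,
      (M₀.map (MvPolynomial.C : Ω →+* MvPolynomial τ Ω) +
          U.map (MvPolynomial.C : Ω →+* MvPolynomial τ Ω) * diagonal ψ *
            V.map (MvPolynomial.C : Ω →+* MvPolynomial τ Ω)).det =
        MvPolynomial.C ((M₀ + U * diagonal (fun c => MvPolynomial.eval a (ψ c)) * V).det) *
          (1 + diagonal (fun c => ψ c - MvPolynomial.C (MvPolynomial.eval a (ψ c))) *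
            K.map (MvPolynomial.C : Ω →+* MvPolynomial τ Ω)).det := by
  classical
  set B : Matrix (Fin r) (Fin r) Ω := M₀ + U * diagonal (fun c => MvPolynomial.eval a (ψ c)) * V with hB
  set c : Ω →+* MvPolynomial τ Ω := MvPolynomial.C with hc
  set D : Matrix κ κ (MvPolynomial τ Ω) := diagonal (fun j => ψ j - c (MvPolynomial.eval a (ψ j))) with hD
  refine ⟨V * B⁻¹ * U, ?_⟩
  have hu : IsUnit B.det := isUnit_iff_ne_zero.2 ha
  have h1 : (diagonal (fun j => MvPolynomial.eval a (ψ j)) : Matrix κ κ Ω).map c =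
      diagonal (fun j => c (MvPolynomial.eval a (ψ j))) := Matrix.diagonal_map (map_zero c)
  have h2 : (diagonal ψ : Matrix κ κ (MvPolynomial τ Ω)) =
      (diagonal (fun j => MvPolynomial.eval a (ψ j)) : Matrix κ κ Ω).map c + D := by
    rw [h1, hD, Matrix.diagonal_add]
    congr 1
    funext j
    rw [add_sub_cancel]
  have h3 : M₀.map c + U.map c * diagonal ψ * V.map c = B.map c + U.map c * D * V.map c := by
    rw [h2, hB, Matrix.map_add c (map_add c), Matrix.map_mul, Matrix.map_mul, Matrix.mul_add, Matrix.add_mul, add_assoc]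
  have h4 : B.map c + U.map c * D * V.map c = B.map c * (1 + (B⁻¹.map c * U.map c) * (D * V.map c)) := by
    rw [Matrix.mul_add, Matrix.mul_one, ← Matrix.mul_assoc, ← Matrix.mul_assoc, ← Matrix.mul_assoc, ← Matrix.map_mul,
      Matrix.mul_nonsing_inv B hu, Matrix.map_one c (map_zero c) (map_one c), Matrix.one_mul]
  have h5 : (V * B⁻¹ * U).map c = V.map c * (B⁻¹.map c * U.map c) := by
    rw [Matrix.map_mul, Matrix.map_mul, Matrix.mul_assoc]
  rw [h3, h4, Matrix.det_mul, Matrix.det_one_add_mul_comm, h5, Matrix.mul_assoc]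
  congr 1
  exact (RingHom.map_det c B).symm

end Pool.Agent.H14.KG
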