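import Pool.Agent.H14.KG.Def
import Pool.Agent.H82.KG.Co

/-! # The parameters of a formula restricted to a block of variables -/

set_option autoImplicit false

universe u

namespace Pool.Agent.H14.KG

open Pool.Agent.H82.KG MvPolynomial

section

variable {F Ω : Type u} [Field F] [Field Ω] [Algebra F Ω] {n : ℕ}

private theorem fp_C (B : Finset (Fin n)) (v : Fin n → Ω) (c : F) :
    spec B v (C c : MvPolynomial (Fin n) F) = C (algebraMap F Ω c) := by
  unfold spec
  rw [MvPolynomial.algHom_C]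
  rfl

private theorem fp_add (B : Finset (Fin n)) (v : Fin n → Ω) (f g : MvPolynomial (Fin n) F) :
    spec B v (f + g) = spec B v f + spec B v g := by
  unfold spec
  rw [map_add]

private theorem fp_mul (B : Finset (Fin n)) (v : Fin n → Ω) (f g : MvPolynomial (Fin n) F) :
    spec B v (f * g) = spec B v f * spec B v g := by
  unfold spec
  rw [map_mul]

private theorem fp_leaf (B : Finset (Fin n)) (v : Fin n → Ω) (i : Fin n) (p : Polynomial F) :
    spec B v (Polynomial.aeval (X i : MvPolynomial (Fin n) F) p) =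
      Polynomial.aeval (if h : i ∈ B then X ⟨i, h⟩ else C (v i) : MvPolynomial {i // i ∈ B} Ω) p := by
  unfold spec
  rw [← Polynomial.aeval_algHom_apply, MvPolynomial.aeval_X]

private theorem fp_leaves (B : Finset (Fin n)) (i : Fin n) (p : Polynomial F) :
    ∑ j ∈ B, (Formula.leaf i p : Formula F n).leaves j = if i ∈ B then 1 else 0 := by
  simp only [Formula.leaves]
  rw [Finset.sum_ite_eq]

private theorem fp_leaves_add (B : Finset (Fin n)) (f g : Formula F n) :
    ∑ j ∈ B, (Formula.add f g).leaves j = ∑ j ∈ B, f.leaves j + ∑ j ∈ B, g.leaves j := by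
  simp only [Formula.leaves]
  rw [Finset.sum_add_distrib]

private theorem fp_leaves_mul (B : Finset (Fin n)) (f g : Formula F n) :
    ∑ j ∈ B, (Formula.mul f g).leaves j = ∑ j ∈ B, f.leaves j + ∑ j ∈ B, g.leaves j := by
  simp only [Formula.leaves]
  rw [Finset.sum_add_distrib]

end

/-- A formula without leaves in the block `B` restricts to a constant. -/
theorem Formula.spec_const {F Ω : Type u} [Field F] [Field Ω] [Algebra F Ω] {n : ℕ}
    (B : Finset (Fin n)) (v : Fin n → Ω) (φ : Formula F n)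
    (hq : ∑ i ∈ B, φ.leaves i = 0) : ∃ c : Ω, spec B v φ.poly = MvPolynomial.C c := by
  induction φ with
  | const c => exact ⟨algebraMap F Ω c, fp_C B v c⟩
  | leaf i p =>
    rw [fp_leaves] at hq
    have hi : i ∉ B := by
      intro h
      rw [if_pos h] at hq
      omega
    refine ⟨Polynomial.aeval (v i) p, ?_⟩
    simp only [Formula.poly]
    rw [fp_leaf, dif_neg hi]
    exact Polynomial.aeval_algHom_apply (IsScalarTower.toAlgHom F Ω (MvPolynomial {i // i ∈ B} Ω)) (v i) p
  | add f g ihf ihg =>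
    rw [fp_leaves_add] at hq
    obtain ⟨c, hc⟩ := ihf (by omega)
    obtain ⟨d, hd⟩ := ihg (by omega)
    refine ⟨c + d, ?_⟩
    simp only [Formula.poly]
    rw [fp_add, hc, hd, C_add]
  | mul f g ihf ihg =>
    rw [fp_leaves_mul] at hq
    obtain ⟨c, hc⟩ := ihf (by omega)
    obtain ⟨d, hd⟩ := ihg (by omega)
    refine ⟨c * d, ?_⟩
    simp only [Formula.poly]
    rw [fp_mul, hc, hd, C_mul]

/-- A formula with `q ≥ 1` leaves in the block `B` restricts to `α Ψ + β` where the coefficients of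
`Ψ` lie in a field generated over `F` by at most `2 (q - 1)` elements. -/
theorem Formula.spec_param {F Ω : Type u} [Field F] [Field Ω] [Algebra F Ω] {n : ℕ}
    (B : Finset (Fin n)) (v : Fin n → Ω) (φ : Formula F n)
    (hq : 1 ≤ ∑ i ∈ B, φ.leaves i) :
    ∃ S : Finset Ω, S.card + 2 ≤ 2 * ∑ i ∈ B, φ.leaves i ∧
      ∃ (α β : Ω) (Ψ : MvPolynomial {i // i ∈ B} Ω),
        (∀ μ, Ψ.coeff μ ∈ IntermediateField.adjoin F (S : Set Ω)) ∧
        spec B v φ.poly = MvPolynomial.C α * Ψ + MvPolynomial.C β := by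
  classical
  induction φ with
  | const c =>
    simp [Formula.leaves] at hq
  | leaf i p =>
    rw [fp_leaves] at hq ⊢
    have hi : i ∈ B := by
      by_contra h
      rw [if_neg h] at hq
      omega
    rw [if_pos hi]
    refine ⟨∅, by simp, 1, 0, Polynomial.aeval (X ⟨i, hi⟩) p, (Co.X _ _).aeval p, ?_⟩
    simp only [Formula.poly]
    rw [fp_leaf, dif_pos hi, C_1, one_mul, C_0, add_zero]
  | add f g ihf ihg =>
    rw [fp_leaves_add] at hq ⊢
    simp only [Formula.poly]
    rw [fp_add]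
    rcases Nat.eq_zero_or_pos (∑ i ∈ B, f.leaves i) with hf | hf
    · obtain ⟨c, hc⟩ := Formula.spec_const B v f hf
      obtain ⟨S, hS, α, β, Ψ, hΨ, he⟩ := ihg (by omega)
      refine ⟨S, by omega, α, c + β, Ψ, hΨ, ?_⟩
      rw [hc, he, C_add]
      ring
    rcases Nat.eq_zero_or_pos (∑ i ∈ B, g.leaves i) with hg | hg
    · obtain ⟨c, hc⟩ := Formula.spec_const B v g hg
      obtain ⟨S, hS, α, β, Ψ, hΨ, he⟩ := ihf (by omega)
      refine ⟨S, by omega, α, c + β, Ψ, hΨ, ?_⟩
      rw [hc, he, C_add]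
      ring
    obtain ⟨S1, hS1, α1, β1, Ψ1, hΨ1, he1⟩ := ihf hf
    obtain ⟨S2, hS2, α2, β2, Ψ2, hΨ2, he2⟩ := ihg hg
    rw [he1, he2]
    by_cases ha1 : α1 = 0
    · refine ⟨S2, by omega, α2, β1 + β2, Ψ2, hΨ2, ?_⟩
      rw [ha1, C_0, C_add]
      ring
    refine ⟨insert (α2 / α1) (S1 ∪ S2), ?_, α1, β1 + β2, Ψ1 + C (α2 / α1) * Ψ2, ?_, ?_⟩
    · have h1 := Finset.card_insert_le (α2 / α1) (S1 ∪ S2)
      have h2 := Finset.card_union_le S1 S2
      omega
    · have e1 : (S1 : Set Ω) ⊆ (insert (α2 / α1) (S1 ∪ S2) : Finset Ω) := by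
        intro x hx
        exact Finset.mem_coe.2 (Finset.mem_insert_of_mem (Finset.mem_union_left _ (Finset.mem_coe.1 hx)))
      have e2 : (S2 : Set Ω) ⊆ (insert (α2 / α1) (S1 ∪ S2) : Finset Ω) := by
        intro x hx
        exact Finset.mem_coe.2 (Finset.mem_insert_of_mem (Finset.mem_union_right _ (Finset.mem_coe.1 hx)))
      exact (Co.mono hΨ1 e1).add ((Co.C_mem (Finset.mem_coe.2 (Finset.mem_insert_self _ _))).mul
        (Co.mono hΨ2 e2))
    · have h1 : (C α2 : MvPolynomial {i // i ∈ B} Ω) = C α1 * C (α2 / α1) := by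
        rw [← C_mul]
        congr 1
        field_simp
      rw [h1, C_add]
      ring
  | mul f g ihf ihg =>
    rw [fp_leaves_mul] at hq ⊢
    simp only [Formula.poly]
    rw [fp_mul]
    rcases Nat.eq_zero_or_pos (∑ i ∈ B, f.leaves i) with hf | hf
    · obtain ⟨c, hc⟩ := Formula.spec_const B v f hf
      obtain ⟨S, hS, α, β, Ψ, hΨ, he⟩ := ihg (by omega)
      refine ⟨S, by omega, c * α, c * β, Ψ, hΨ, ?_⟩
      rw [hc, he, C_mul, C_mul]
      ring
    rcases Nat.eq_zero_or_pos (∑ i ∈ B, g.leaves i) with hg | hg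
    · obtain ⟨c, hc⟩ := Formula.spec_const B v g hg
      obtain ⟨S, hS, α, β, Ψ, hΨ, he⟩ := ihf (by omega)
      refine ⟨S, by omega, c * α, c * β, Ψ, hΨ, ?_⟩
      rw [hc, he, C_mul, C_mul]
      ring
    obtain ⟨S1, hS1, α1, β1, Ψ1, hΨ1, he1⟩ := ihf hf
    obtain ⟨S2, hS2, α2, β2, Ψ2, hΨ2, he2⟩ := ihg hg
    rw [he1, he2]
    by_cases ha1 : α1 = 0
    · refine ⟨S2, by omega, β1 * α2, β1 * β2, Ψ2, hΨ2, ?_⟩
      rw [ha1, C_0, C_mul, C_mul]
      ring
    by_cases ha2 : α2 = 0
    · refine ⟨S1, by omega, β2 * α1, β1 * β2, Ψ1, hΨ1, ?_⟩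
      rw [ha2, C_0, C_mul, C_mul]
      ring
    refine ⟨insert (β2 / α2) (insert (β1 / α1) (S1 ∪ S2)), ?_, α1 * α2, 0,
      (Ψ1 + C (β1 / α1)) * (Ψ2 + C (β2 / α2)), ?_, ?_⟩
    · have h0 := Finset.card_insert_le (β2 / α2) (insert (β1 / α1) (S1 ∪ S2))
      have h1 := Finset.card_insert_le (β1 / α1) (S1 ∪ S2)
      have h2 := Finset.card_union_le S1 S2
      omega
    · have e1 : (S1 : Set Ω) ⊆ (insert (β2 / α2) (insert (β1 / α1) (S1 ∪ S2)) : Finset Ω) := by
        intro x hx
        exact Finset.mem_coe.2 (Finset.mem_insert_of_mem (Finset.mem_insert_of_mem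
          (Finset.mem_union_left _ (Finset.mem_coe.1 hx))))
      have e2 : (S2 : Set Ω) ⊆ (insert (β2 / α2) (insert (β1 / α1) (S1 ∪ S2)) : Finset Ω) := by
        intro x hx
        exact Finset.mem_coe.2 (Finset.mem_insert_of_mem (Finset.mem_insert_of_mem
          (Finset.mem_union_right _ (Finset.mem_coe.1 hx))))
      refine ((Co.mono hΨ1 e1).add (Co.C_mem ?_)).mul ((Co.mono hΨ2 e2).add (Co.C_mem ?_))
      · exact Finset.mem_coe.2 (Finset.mem_insert_of_mem (Finset.mem_insert_self _ _))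
      · exact Finset.mem_coe.2 (Finset.mem_insert_self _ _)
    · have h1 : (C β2 : MvPolynomial {i // i ∈ B} Ω) = C α2 * C (β2 / α2) := by
        rw [← C_mul]
        congr 1
        field_simp
      have h2 : (C β1 : MvPolynomial {i // i ∈ B} Ω) = C α1 * C (β1 / α1) := by
        rw [← C_mul]
        congr 1
        field_simp
      rw [h1, h2, C_mul, C_0]
      ring

end Pool.Agent.H14.KG
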