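import Pool.Agent.H14.KG.Def
import Pool.Agent.H22.KG.Core

/-! # Kalorkoti's measure: specialisation and bounds -/

set_option autoImplicit false

universe u

namespace Pool.Agent.H14.KG

open AlgebraicIndependent in
private theorem spec_mono {F Ω : Type u} [Field F] [CommRing Ω] [IsDomain Ω]
    [Algebra F Ω] {s t : Set Ω} (hst : s ⊆ t) {x : Ω}
    (hx : IsAlgebraic (Algebra.adjoin F s) x) : IsAlgebraic (Algebra.adjoin F t) x :=
  Pool.H22.KG.mem_closure_iff.mp
    ((matroid F Ω).closure_subset_closure hst (Pool.H22.KG.mem_closure_iff.mpr hx))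

private theorem spec_map {F Ω : Type u} [Field F] [CommRing Ω] [Algebra F Ω] {n : ℕ}
    (B : Finset (Fin n)) (v : Fin n → Ω) (f : MvPolynomial (Fin n) F) :
    spec B v f = MvPolynomial.mapAlgHom (MvPolynomial.aeval v : MvPolynomial (Fin n) F →ₐ[F] Ω)
      (spec B (MvPolynomial.X : Fin n → MvPolynomial (Fin n) F) f) := by
  have h1 : (MvPolynomial.mapAlgHom (MvPolynomial.aeval v : MvPolynomial (Fin n) F →ₐ[F] Ω)).comp
      (MvPolynomial.aeval (fun i => if h : i ∈ B then
        (MvPolynomial.X ⟨i, h⟩ : MvPolynomial {i // i ∈ B} (MvPolynomial (Fin n) F))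
        else MvPolynomial.C (MvPolynomial.X i)))
      = (MvPolynomial.aeval (fun i => if h : i ∈ B then
        (MvPolynomial.X ⟨i, h⟩ : MvPolynomial {i // i ∈ B} Ω)
        else MvPolynomial.C (v i))) := by
    apply MvPolynomial.algHom_ext
    intro i
    rw [AlgHom.comp_apply, MvPolynomial.aeval_X, MvPolynomial.aeval_X]
    by_cases h : i ∈ B
    · rw [dif_pos h, dif_pos h]
      simp [MvPolynomial.mapAlgHom_apply]
    · rw [dif_neg h, dif_neg h]
      simp [MvPolynomial.mapAlgHom_apply]
  exact (congrArg (fun φ : MvPolynomial (Fin n) F →ₐ[F] MvPolynomial {i // i ∈ B} Ω => φ f)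
    h1).symm

private theorem spec_coeff {F Ω : Type u} [Field F] [CommRing Ω] [Algebra F Ω] {n : ℕ}
    (B : Finset (Fin n)) (v : Fin n → Ω) (f : MvPolynomial (Fin n) F) (μ : {i // i ∈ B} →₀ ℕ) :
    (spec B v f).coeff μ = MvPolynomial.aeval v
      ((spec B (MvPolynomial.X : Fin n → MvPolynomial (Fin n) F) f).coeff μ) := by
  rw [spec_map B v f]
  simp [MvPolynomial.mapAlgHom_apply, MvPolynomial.coeff_map]

/-- The coefficients of every specialisation of `f` are algebraic over `measure B f` elements. -/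
theorem exists_gens_of_measure_le {F Ω : Type u} [Field F] [CommRing Ω] [IsDomain Ω]
    [Algebra F Ω] {n : ℕ}
    (B : Finset (Fin n)) (v : Fin n → Ω) (f : MvPolynomial (Fin n) F) (t : ℕ)
    (h : measure B f ≤ (t : Cardinal.{u})) :
    ∃ g : Fin t → Ω, ∀ μ,
      IsAlgebraic (Algebra.adjoin F (Set.range g)) ((spec B v f).coeff μ) := by
  classical
  set c : ({i // i ∈ B} →₀ ℕ) → MvPolynomial (Fin n) F := fun μ =>
    (spec B (MvPolynomial.X : Fin n → MvPolynomial (Fin n) F) f).coeff μ with hc
  let CC : Subalgebra F (MvPolynomial (Fin n) F) := Algebra.adjoin F (Set.range c)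
  let ψ : MvPolynomial (Fin n) F →ₐ[F] Ω := MvPolynomial.aeval v
  let D : Subalgebra F Ω := CC.map ψ
  let ψ' : CC →ₐ[F] D := (ψ.comp CC.val).codRestrict D (fun x =>
    Subalgebra.mem_map.mpr ⟨x, x.2, rfl⟩)
  have hsurj : Function.Surjective ψ' := by
    rintro ⟨y, hy⟩
    obtain ⟨x, hx, rfl⟩ := Subalgebra.mem_map.mp hy
    exact ⟨⟨x, hx⟩, rfl⟩
  have htr : Algebra.trdeg F D ≤ (t : Cardinal.{u}) :=
    (trdeg_le_of_surjective ψ' hsurj).trans h
  have hfaith : Function.Injective (algebraMap F D) := (algebraMap F D).injective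
  have : FaithfulSMul F D := (faithfulSMul_iff_algebraMap_injective F D).mpr hfaith
  obtain ⟨s, hs⟩ := exists_isTranscendenceBasis F D
  have hcard : Cardinal.mk s ≤ (t : Cardinal.{u}) := by
    rw [hs.cardinalMk_eq_trdeg]; exact htr
  have hcard' : Cardinal.lift.{0} (Cardinal.mk s) ≤ Cardinal.lift.{u} (Cardinal.mk (Fin t)) := by
    simpa using hcard
  obtain ⟨e⟩ := Cardinal.lift_mk_le'.mp hcard'
  let g : Fin t → Ω := fun j => if hj : ∃ x : s, e x = j then ((hj.choose : s) : D) else 0
  have hg : ∀ x : s, ((x : D) : Ω) ∈ Set.range g := by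
    intro x
    refine ⟨e x, ?_⟩
    have hj : ∃ x' : s, e x' = e x := ⟨x, rfl⟩
    have h2 : hj.choose = x := e.injective hj.choose_spec
    simp only [g]
    rw [dif_pos hj, h2]
  refine ⟨g, fun μ => ?_⟩
  rw [spec_coeff B v f μ]
  have hmem : ψ (c μ) ∈ D :=
    Subalgebra.mem_map.mpr ⟨c μ, Algebra.subset_adjoin ⟨μ, rfl⟩, rfl⟩
  have := hs.isAlgebraic
  have h3 : IsAlgebraic (Algebra.adjoin F (Set.range ((↑) : s → D))) (⟨ψ (c μ), hmem⟩ : D) :=
    Algebra.IsAlgebraic.isAlgebraic _
  have h4 := Pool.H22.KG.isAlgebraic_map D.val Subtype.val_injective h3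
  refine spec_mono ?_ h4
  rintro _ ⟨_, ⟨x, rfl⟩, rfl⟩
  exact hg x

/-- Upper bound for the measure from a parametrisation in the generic point. -/
theorem measure_le_of_gens {F : Type u} [Field F] {n : ℕ} (B : Finset (Fin n))
    (f : MvPolynomial (Fin n) F) (t : ℕ) (S : Finset (FractionRing (MvPolynomial (Fin n) F)))
    (hS : S.card ≤ t)
    (h : ∀ μ, (spec B (fun i => algebraMap (MvPolynomial (Fin n) F)
        (FractionRing (MvPolynomial (Fin n) F)) (MvPolynomial.X i)) f).coeff μ ∈
      IntermediateField.adjoin F (S : Set (FractionRing (MvPolynomial (Fin n) F)))) :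
    measure B f ≤ (t : Cardinal.{u}) := by
  classical
  set c : ({i // i ∈ B} →₀ ℕ) → MvPolynomial (Fin n) F := fun μ =>
    (spec B (MvPolynomial.X : Fin n → MvPolynomial (Fin n) F) f).coeff μ with hc
  let CC : Subalgebra F (MvPolynomial (Fin n) F) := Algebra.adjoin F (Set.range c)
  let K := FractionRing (MvPolynomial (Fin n) F)
  let E : IntermediateField F K := IntermediateField.adjoin F (S : Set K)
  let j : MvPolynomial (Fin n) F →ₐ[F] K := IsScalarTower.toAlgHom F (MvPolynomial (Fin n) F) K
  have hj : ∀ x, j x = algebraMap (MvPolynomial (Fin n) F) K x := fun x => rfl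
  have hjaev : (MvPolynomial.aeval (fun i => algebraMap (MvPolynomial (Fin n) F) K
      (MvPolynomial.X i)) : MvPolynomial (Fin n) F →ₐ[F] K) = j := by
    apply MvPolynomial.algHom_ext
    intro i
    rw [MvPolynomial.aeval_X, hj]
  have hcE : ∀ μ, j (c μ) ∈ E := by
    intro μ
    have := h μ
    rw [spec_coeff, hjaev] at this
    exact this
  have hle : CC ≤ (E.toSubalgebra).comap j := by
    refine Algebra.adjoin_le ?_
    rintro _ ⟨μ, rfl⟩
    exact hcE μ
  show Algebra.trdeg F CC ≤ (t : Cardinal.{u})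
  have hfaith : Function.Injective (algebraMap F CC) := (algebraMap F CC).injective
  have : FaithfulSMul F CC := (faithfulSMul_iff_algebraMap_injective F CC).mpr hfaith
  obtain ⟨s, hs⟩ := exists_isTranscendenceBasis F CC
  rw [← hs.cardinalMk_eq_trdeg]
  have hinj : Function.Injective (j.comp CC.val) := by
    intro x y hxy
    exact Subtype.ext (IsFractionRing.injective (MvPolynomial (Fin n) F) K hxy)
  have hind : AlgebraicIndependent F (fun x : s => j.comp CC.val (x : CC)) :=
    hs.1.map' hinj
  have hI : (AlgebraicIndependent.matroid F K).Indep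
      (Set.range (fun x : s => j.comp CC.val (x : CC))) := by
    rw [AlgebraicIndependent.matroid_indep_iff]
    exact hind.coe_range
  have hsub : Set.range (fun x : s => j.comp CC.val (x : CC)) ⊆
      (AlgebraicIndependent.matroid F K).closure (S : Set K) := by
    rintro _ ⟨x, rfl⟩
    have hxE : j ((x : CC) : MvPolynomial (Fin n) F) ∈ E := hle (x : CC).2
    refine Pool.H22.KG.mem_closure_iff.mpr ?_
    have h5 : IsAlgebraic (IntermediateField.adjoin F (S : Set K))
        (j ((x : CC) : MvPolynomial (Fin n) F)) :=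
      isAlgebraic_algebraMap (⟨_, hxE⟩ : IntermediateField.adjoin F (S : Set K))
    exact IntermediateField.isAlgebraic_adjoin_iff.mp h5
  have h6 := hI.encard_le_eRk_of_subset hsub
  rw [Matroid.eRk_closure_eq] at h6
  have h7 : (Set.range (fun x : s => j.comp CC.val (x : CC))).encard ≤ (t : ℕ∞) := by
    refine h6.trans (((AlgebraicIndependent.matroid F K).eRk_le_encard _).trans ?_)
    rw [Set.encard_coe_eq_coe_finsetCard]
    exact_mod_cast hS
  have hinj2 : Function.Injective (fun x : s => j.comp CC.val (x : CC)) := hind.injective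
  rw [← Set.image_univ, hinj2.encard_image, Set.encard_univ] at h7
  have h8 : Finite s := by
    rw [← ENat.card_lt_top]
    exact lt_of_le_of_lt h7 (ENat.natCast_lt_top t)
  have h9 : Nat.card s ≤ t := by
    have := h7
    rw [ENat.card_eq_coe_natCard] at this
    exact_mod_cast this
  rw [← Nat.cast_card (α := s)]
  exact_mod_cast h9

end Pool.Agent.H14.KG
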