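import Pool.Agent.H14.KG.Def
import Pool.Agent.H14.KG.Spec
import Pool.Agent.H14.KG.FPar
import Pool.Agent.H14.KG.DetForm
import Pool.Agent.H82.KG.Co

/-! # Kalorkoti's measure of a determinant of a pencil -/

set_option autoImplicit false

universe u

namespace Pool.Agent.H14.KG

open Matrix

section

open MvPolynomial Pool.Agent.H82.KG

variable {F Ω σ κ : Type*} [Field F] [Field Ω] [Algebra F Ω]

private theorem dp_eval {T : Set Ω} {p : MvPolynomial σ Ω} (hp : Co F T p) (a : σ → Ω)
    (ha : ∀ i, a i ∈ Set.range (algebraMap F Ω)) : eval a p ∈ IntermediateField.adjoin F T := by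
  rw [MvPolynomial.eval_eq]
  refine sum_mem fun d _ => mul_mem (hp d) (prod_mem fun i _ => pow_mem ?_ _)
  obtain ⟨b, hb⟩ := ha i
  rw [← hb]
  exact IntermediateField.algebraMap_mem _ b

/-- the parameters of `ψ - ψ(a)` -/
private theorem dp_delta [DecidableEq Ω] (ψ : MvPolynomial σ Ω) (w : ℕ)
    (h0 : w = 0 → ∃ b, ψ = C b)
    (h1 : 1 ≤ w → ∃ S : Finset Ω, S.card + 2 ≤ 2 * w ∧ ∃ (α β : Ω) (Ψ : MvPolynomial σ Ω),
      Co F (S : Set Ω) Ψ ∧ ψ = C α * Ψ + C β)
    (a : σ → Ω) (ha : ∀ i, a i ∈ Set.range (algebraMap F Ω)) :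
    ∃ S : Finset Ω, S.card ≤ 2 * w - 1 ∧ Co F (S : Set Ω) (ψ - C (eval a ψ)) := by
  rcases Nat.eq_zero_or_pos w with hw | hw
  · obtain ⟨b, hb⟩ := h0 hw
    refine ⟨∅, by simp, ?_⟩
    rw [hb, eval_C, sub_self]
    exact Co.zero _
  · obtain ⟨S, hS, α, β, Ψ, hΨ, he⟩ := h1 hw
    refine ⟨insert α S, ?_, ?_⟩
    · have h2 := Finset.card_insert_le α S
      omega
    · have e1 : (S : Set Ω) ⊆ (insert α S : Finset Ω) := by
        intro x hx
        exact Finset.mem_coe.2 (Finset.mem_insert_of_mem (Finset.mem_coe.1 hx))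
      have h3 : ψ - C (eval a ψ) = C α * (Ψ - C (eval a Ψ)) := by
        rw [he, map_add, map_mul, eval_C, eval_C, C_add, C_mul]
        ring
      rw [h3]
      refine (Co.C_mem (Finset.mem_coe.2 (Finset.mem_insert_self _ _))).mul ?_
      exact (Co.mono hΨ e1).sub (Co.mono (Co.C (dp_eval hΨ a ha)) e1)

private theorem dp_core [Infinite F] [DecidableEq Ω] [Fintype κ] [DecidableEq κ] {r : ℕ}
    (M₀ : Matrix (Fin r) (Fin r) F) (U : Matrix (Fin r) κ F) (V : Matrix κ (Fin r) F)
    (ψ : κ → MvPolynomial σ Ω) (w : κ → ℕ) (q : ℕ) (hq1 : 1 ≤ q) (hq : ∑ c, w c ≤ q)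
    (h0 : ∀ c, w c = 0 → ∃ b, ψ c = C b)
    (h1 : ∀ c, 1 ≤ w c → ∃ S : Finset Ω, S.card + 2 ≤ 2 * w c ∧
      ∃ (α β : Ω) (Ψ : MvPolynomial σ Ω), Co F (S : Set Ω) Ψ ∧ ψ c = C α * Ψ + C β) :
    ∃ S : Finset Ω, S.card ≤ (min q r) ^ 2 + 2 * q ∧ Co F (S : Set Ω)
      ((M₀.map (algebraMap F Ω)).map (C : Ω →+* MvPolynomial σ Ω) +
        (U.map (algebraMap F Ω)).map (C : Ω →+* MvPolynomial σ Ω) * diagonal ψ *
          (V.map (algebraMap F Ω)).map (C : Ω →+* MvPolynomial σ Ω)).det := by
  set N := ((M₀.map (algebraMap F Ω)).map (C : Ω →+* MvPolynomial σ Ω) +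
        (U.map (algebraMap F Ω)).map (C : Ω →+* MvPolynomial σ Ω) * diagonal ψ *
          (V.map (algebraMap F Ω)).map (C : Ω →+* MvPolynomial σ Ω)) with hN
  by_cases hdet : N.det = 0
  · refine ⟨∅, by simp, ?_⟩
    rw [hdet]
    exact Co.zero _
  -- a point of `F^σ` where the determinant is not zero
  obtain ⟨a, ha, hda⟩ : ∃ a : σ → Ω, (∀ i, a i ∈ Set.range (algebraMap F Ω)) ∧ eval a N.det ≠ 0 := by
    by_contra hcon
    push Not at hcon
    apply hdet
    refine MvPolynomial.funext_set (fun _ : σ => Set.range (algebraMap F Ω))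
      (fun _ => Set.infinite_range_of_injective (algebraMap F Ω).injective) ?_
    intro x hx
    rw [map_zero]
    exact hcon x fun i => hx i (Set.mem_univ i)
  set A := M₀.map (algebraMap F Ω) with hA
  set U1 := U.map (algebraMap F Ω) with hU1
  set V1 := V.map (algebraMap F Ω) with hV1
  set B : Matrix (Fin r) (Fin r) Ω := A + U1 * diagonal (fun c => eval a (ψ c)) * V1 with hB
  have hBdet : B.det ≠ 0 := by
    have h2 : eval a N.det = B.det := by
      rw [RingHom.map_det]
      congr 1
      rw [hN, hB]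
      ext1 i j
      rw [RingHom.mapMatrix_apply, Matrix.map_apply, Matrix.add_apply, Matrix.add_apply,
        Matrix.mul_apply, Matrix.mul_apply, map_add, map_sum]
      simp only [Matrix.mul_diagonal, map_mul, Matrix.map_apply, eval_C]
    rwa [← h2]
  -- the parameters of the terms
  choose S hS hSco using fun c => dp_delta (F := F) (ψ c) (w c) (h0 c) (h1 c) a ha
  set SS : Finset Ω := Finset.univ.biUnion S with hSS
  have hSSsub : ∀ c, (S c : Set Ω) ⊆ (SS : Set Ω) := by
    intro c x hx
    exact Finset.mem_coe.2 (Finset.mem_biUnion.2 ⟨c, Finset.mem_univ _, Finset.mem_coe.1 hx⟩)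
  set τ : Finset κ := Finset.univ.filter fun c => 1 ≤ w c with hτ
  have hcount : SS.card + τ.card ≤ 2 * ∑ c, w c := by
    have h2 : SS.card ≤ ∑ c, (2 * w c - 1) :=
      Finset.card_biUnion_le.trans (Finset.sum_le_sum fun c _ => hS c)
    have h3 : τ.card = ∑ c, if 1 ≤ w c then 1 else 0 := by
      rw [hτ, Finset.card_filter]
    calc SS.card + τ.card ≤ ∑ c, (2 * w c - 1) + ∑ c, (if 1 ≤ w c then 1 else 0) := by omega
      _ = ∑ c, ((2 * w c - 1) + if 1 ≤ w c then 1 else 0) := Finset.sum_add_distrib.symm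
      _ ≤ ∑ c, 2 * w c := by
          refine Finset.sum_le_sum fun c _ => ?_
          split_ifs with h4 <;> omega
      _ = 2 * ∑ c, w c := (Finset.mul_sum _ _ _).symm
  have hτq : τ.card ≤ ∑ c, w c := by
    have h3 : τ.card = ∑ c, if 1 ≤ w c then 1 else 0 := by
      rw [hτ, Finset.card_filter]
    rw [h3]
    refine Finset.sum_le_sum fun c _ => ?_
    split_ifs with h4 <;> omega
  have hδ0 : ∀ c, c ∉ τ → ψ c - C (eval a (ψ c)) = 0 := by
    intro c hc
    have h2 : w c = 0 := by
      by_contra h3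
      exact hc (Finset.mem_filter.2 ⟨Finset.mem_univ _, by omega⟩)
    obtain ⟨b, hb⟩ := h0 c h2
    rw [hb, eval_C, sub_self]
  rcases Nat.lt_or_ge r τ.card with hr | hr
  · -- more terms than rows
    set T : Finset Ω := (Finset.univ.image fun p : Fin r × Fin r => B p.1 p.2) ∪ SS with hT
    have hTc : T.card ≤ r * r + SS.card := by
      refine (Finset.card_union_le _ _).trans ?_
      have h2 := Finset.card_image_le (s := (Finset.univ : Finset (Fin r × Fin r)))
        (f := fun p : Fin r × Fin r => B p.1 p.2)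
      rw [Finset.card_univ, Fintype.card_prod, Fintype.card_fin] at h2
      omega
    refine ⟨T, ?_, ?_⟩
    · have h2 : min q r = r := min_eq_right (by omega)
      rw [h2, sq]
      omega
    · have h3 : N = B.map (C : Ω →+* MvPolynomial σ Ω) + U1.map (C : Ω →+* MvPolynomial σ Ω) *
          diagonal (fun c => ψ c - C (eval a (ψ c))) * V1.map (C : Ω →+* MvPolynomial σ Ω) := by
        rw [hN, hB]
        ext1 i j
        rw [Matrix.add_apply, Matrix.add_apply, Matrix.map_apply, Matrix.map_apply,
          Matrix.add_apply, Matrix.mul_apply, Matrix.mul_apply, Matrix.mul_apply, C_add, map_sum]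
        simp only [Matrix.mul_diagonal, Matrix.map_apply, C_mul]
        rw [add_assoc, ← Finset.sum_add_distrib]
        congr 1
        refine Finset.sum_congr rfl fun c _ => ?_
        ring
      rw [h3]
      refine Co.det fun i j => ?_
      rw [Matrix.add_apply, Matrix.mul_apply]
      refine Co.add ?_ (Co.sum _ fun c _ => ?_)
      · rw [Matrix.map_apply]
        exact Co.C_mem (Finset.mem_coe.2 (Finset.mem_union_left _
          (Finset.mem_image.2 ⟨(i, j), Finset.mem_univ _, rfl⟩)))
      · rw [Matrix.mul_diagonal, Matrix.map_apply, Matrix.map_apply]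
        refine ((Co.base _ _).mul ?_).mul (Co.base _ _)
        refine Co.mono (hSco c) ((hSSsub c).trans ?_)
        intro x hx
        exact Finset.mem_coe.2 (Finset.mem_union_right _ (Finset.mem_coe.1 hx))
  · -- at most `r` terms
    obtain ⟨K, hK⟩ := det_pencil_eq A U1 V1 ψ a hBdet
    set D : Matrix κ κ (MvPolynomial σ Ω) := diagonal (fun c => ψ c - C (eval a (ψ c))) with hD
    set P : Matrix κ κ (MvPolynomial σ Ω) := diagonal (fun c => if c ∈ τ then 1 else 0) with hP
    have hPD : P * D = D := by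
      rw [hP, hD, Matrix.diagonal_mul_diagonal]
      congr 1
      funext c
      split_ifs with hc
      · rw [one_mul]
      · rw [zero_mul, hδ0 c hc]
    have hDP : D * P = D := by
      rw [hP, hD, Matrix.diagonal_mul_diagonal]
      congr 1
      funext c
      split_ifs with hc
      · rw [mul_one]
      · rw [mul_zero, hδ0 c hc]
    have h5 : (1 + D * K.map (C : Ω →+* MvPolynomial σ Ω)).det =
        (1 + D * (P * K.map (C : Ω →+* MvPolynomial σ Ω) * P)).det := by
      have h6 : D * K.map (C : Ω →+* MvPolynomial σ Ω) =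
          P * (D * K.map (C : Ω →+* MvPolynomial σ Ω)) := by
        rw [← Matrix.mul_assoc, hPD]
      have h7 : D * (P * K.map (C : Ω →+* MvPolynomial σ Ω) * P) =
          (D * K.map (C : Ω →+* MvPolynomial σ Ω)) * P := by
        rw [← Matrix.mul_assoc, ← Matrix.mul_assoc, hDP]
      rw [h7, h6, Matrix.det_one_add_mul_comm, ← h6]
    set T : Finset Ω := insert B.det (((τ ×ˢ τ).image fun p : κ × κ => K p.1 p.2) ∪ SS) with hT
    have hTc : T.card ≤ 1 + τ.card * τ.card + SS.card := by
      refine (Finset.card_insert_le _ _).trans ?_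
      have h2 := Finset.card_image_le (s := τ ×ˢ τ) (f := fun p : κ × κ => K p.1 p.2)
      rw [Finset.card_product] at h2
      have h3 := Finset.card_union_le ((τ ×ˢ τ).image fun p : κ × κ => K p.1 p.2) SS
      omega
    have hSST : (SS : Set Ω) ⊆ (T : Set Ω) := by
      intro x hx
      exact Finset.mem_coe.2 (Finset.mem_insert_of_mem (Finset.mem_union_right _ (Finset.mem_coe.1 hx)))
    refine ⟨T, ?_, ?_⟩
    · rcases Nat.eq_zero_or_pos τ.card with h8 | h8
      · have h9 : ∑ c, w c = 0 := by
          refine Finset.sum_eq_zero fun c _ => ?_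
          by_contra h3
          have h11 : c ∈ τ := Finset.mem_filter.2 ⟨Finset.mem_univ _, by omega⟩
          rw [Finset.card_eq_zero.1 h8] at h11
          exact absurd h11 (Finset.notMem_empty c)
        rw [h8] at hTc hcount
        omega
      · have h9 : τ.card ≤ min q r := le_min (by omega) hr
        have h10 : τ.card * τ.card ≤ min q r * min q r := Nat.mul_le_mul h9 h9
        rw [sq]
        omega
    · rw [hK, h5]
      refine (Co.C_mem (Finset.mem_coe.2 (Finset.mem_insert_self _ _))).mul (Co.det fun i j => ?_)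
      rw [Matrix.add_apply, hD, Matrix.diagonal_mul, hP, Matrix.mul_diagonal, Matrix.diagonal_mul]
      refine Co.add ?_ ?_
      · rw [Matrix.one_apply]
        split_ifs
        · exact Co.one _
        · exact Co.zero _
      · refine (Co.mono (hSco i) ((hSSsub i).trans hSST)).mul ?_
        by_cases hi : i ∈ τ
        · by_cases hj : j ∈ τ
          · rw [if_pos hi, if_pos hj, one_mul, mul_one, Matrix.map_apply]
            exact Co.C_mem (Finset.mem_coe.2 (Finset.mem_insert_of_mem (Finset.mem_union_left _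
              (Finset.mem_image.2 ⟨(i, j), Finset.mem_product.2 ⟨hi, hj⟩, rfl⟩))))
          · rw [if_neg hj, mul_zero]
            exact Co.zero _
        · rw [if_neg hi, zero_mul, zero_mul]
          exact Co.zero _

end

/-- The measure of `det (M₀ + U diag(φ) V)` with respect to a block with at most `q` leaves is
at most `min(q, r)² + 2 q`. -/
theorem measure_det_le {F : Type u} [Field F] [CharZero F] {n r : ℕ} {κ : Type} [Fintype κ]
    [DecidableEq κ] (M₀ : Matrix (Fin r) (Fin r) F) (U : Matrix (Fin r) κ F)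
    (V : Matrix κ (Fin r) F) (φ : κ → Formula F n) (B : Finset (Fin n)) (q : ℕ) (hq1 : 1 ≤ q)
    (hq : ∑ i ∈ B, ∑ c, (φ c).leaves i ≤ q) :
    measure B (M₀.map (MvPolynomial.C : F →+* MvPolynomial (Fin n) F) +
        U.map (MvPolynomial.C : F →+* MvPolynomial (Fin n) F) *
          diagonal (fun c => (φ c).poly) *
          V.map (MvPolynomial.C : F →+* MvPolynomial (Fin n) F)).det ≤
      (((min q r) ^ 2 + 2 * q : ℕ) : Cardinal.{u}) := by
  classical
  have hinf : Infinite F := inferInstance
  set v : Fin n → FractionRing (MvPolynomial (Fin n) F) := fun i =>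
    algebraMap (MvPolynomial (Fin n) F) (FractionRing (MvPolynomial (Fin n) F))
      (MvPolynomial.X i) with hv
  have hw : ∑ c, ∑ i ∈ B, (φ c).leaves i ≤ q := by
    rw [Finset.sum_comm]
    exact hq
  obtain ⟨S, hS, hco⟩ := dp_core (Ω := FractionRing (MvPolynomial (Fin n) F)) M₀ U V
    (fun c => spec B v (φ c).poly) (fun c => ∑ i ∈ B, (φ c).leaves i) q hq1 hw
    (fun c hc => Formula.spec_const B v (φ c) hc) (fun c hc => Formula.spec_param B v (φ c) hc)
  refine measure_le_of_gens B _ _ S hS ?_
  intro μ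
  have h1 : ∀ f : MvPolynomial (Fin n) F, spec B v f = (MvPolynomial.aeval (fun i =>
      if h : i ∈ B then (MvPolynomial.X ⟨i, h⟩ : MvPolynomial {i // i ∈ B}
        (FractionRing (MvPolynomial (Fin n) F))) else MvPolynomial.C (v i)) :
          MvPolynomial (Fin n) F →ₐ[F] _) f := fun f => rfl
  have h2 := hco μ
  have h3 : ∀ Z Z' : Matrix (Fin r) (Fin r) (MvPolynomial {i // i ∈ B}
      (FractionRing (MvPolynomial (Fin n) F))), Z = Z' →
      Z'.det.coeff μ ∈ IntermediateField.adjoin F (S : Set (FractionRing (MvPolynomial (Fin n) F))) →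
      Z.det.coeff μ ∈ IntermediateField.adjoin F (S : Set (FractionRing (MvPolynomial (Fin n) F))) := by
    rintro Z _ rfl h
    exact h
  rw [h1, AlgHom.map_det]
  refine h3 _ _ ?_ h2
  ext1 i j
  rw [AlgHom.mapMatrix_apply, Matrix.map_apply, Matrix.add_apply, Matrix.add_apply,
    Matrix.mul_apply, Matrix.mul_apply, map_add, map_sum]
  simp only [Matrix.mul_diagonal, Matrix.map_apply, map_mul, MvPolynomial.algHom_C]
  rfl

end Pool.Agent.H14.KG
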