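import Mathlib

/-!
# The Kalorkoti generator (MP_966f71): definitions

* `Formula F n`: arithmetic formulas (leaves: constants or univariate polynomials `p(x_i)`,
  gates `+` and `*`);
* `pencil A₀ A φ = A₀ + ∑ c, φ_c(x) A_c`: a matrix of polynomials;
* `occ A φ i = ∑ c, rank (A_c) * (number of leaves p(x_i) of φ_c)`;
* `grid L β D ⊆ ℕ^n`, for `β : [n] → [m]`: the points
  `x_i = ∑_{j < L} p_j (y_{β i} + pos β i) ^ j` with all `p_j, y_c ≤ D`;
* `hitSet n L m D`: the union of these sets over all monotone `β`.
-/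

set_option autoImplicit false

universe u v

namespace Pool.Agent.H14.KG

/-- Arithmetic formulas over `F` in the variables `x_i`, `i < n`: a leaf is a constant or a
univariate polynomial `p(x_i)`, a gate is an addition or a multiplication. -/
inductive Formula (F : Type u) [Semiring F] (n : ℕ) : Type u
  | const (c : F) : Formula F n
  | leaf (i : Fin n) (p : Polynomial F) : Formula F n
  | add (a b : Formula F n) : Formula F n
  | mul (a b : Formula F n) : Formula F n

/-- The polynomial computed by a formula. -/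
noncomputable def Formula.poly {F : Type u} [CommSemiring F] {n : ℕ} :
    Formula F n → MvPolynomial (Fin n) F
  | .const c => MvPolynomial.C c
  | .leaf i p => Polynomial.aeval (MvPolynomial.X i) p
  | .add a b => a.poly + b.poly
  | .mul a b => a.poly * b.poly

/-- The number of leaves `p(x_i)` of a formula, for a fixed `i`. -/
def Formula.leaves {F : Type u} [Semiring F] {n : ℕ} (i : Fin n) : Formula F n → ℕ
  | .const _ => 0
  | .leaf j _ => if j = i then 1 else 0
  | .add a b => a.leaves i + b.leaves i
  | .mul a b => a.leaves i + b.leaves i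

/-- The largest degree of a leaf `p(x_i)` of a formula. -/
noncomputable def Formula.leafDeg {F : Type u} [Semiring F] {n : ℕ} : Formula F n → ℕ
  | .const _ => 0
  | .leaf _ p => p.natDegree
  | .add a b => max a.leafDeg b.leafDeg
  | .mul a b => max a.leafDeg b.leafDeg

/-- The matrix of polynomials `A₀ + ∑ c, φ_c(x) A_c`. -/
noncomputable def pencil {F : Type u} [Field F] {n a b : ℕ} {κ : Type} [Fintype κ]
    (A₀ : Matrix (Fin a) (Fin b) F) (A : κ → Matrix (Fin a) (Fin b) F) (φ : κ → Formula F n) :
    Matrix (Fin a) (Fin b) (MvPolynomial (Fin n) F) :=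
  A₀.map MvPolynomial.C + ∑ c, (φ c).poly • (A c).map MvPolynomial.C

/-- The number of occurrences of `x_i` in `A₀ + ∑ c, φ_c(x) A_c`, a leaf `p(x_i)` of `φ_c` counted
`rank A_c` times. -/
noncomputable def occ {F : Type u} [Field F] {n a b : ℕ} {κ : Type} [Fintype κ]
    (A : κ → Matrix (Fin a) (Fin b) F) (φ : κ → Formula F n) (i : Fin n) : ℕ :=
  ∑ c, (A c).rank * (φ c).leaves i

/-- Rank over the field of rational functions of a matrix of polynomials over `F`. -/
noncomputable def symRank {F : Type u} [Field F] {σ : Type} {a b : ℕ}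
    (M : Matrix (Fin a) (Fin b) (MvPolynomial σ F)) : ℕ :=
  (M.map (algebraMap (MvPolynomial σ F) (FractionRing (MvPolynomial σ F)))).rank

/-- The matrix of values of a matrix of polynomials at the point `h ∈ ℕ^n`. -/
noncomputable def valAt {F : Type u} [Field F] {n a b : ℕ}
    (M : Matrix (Fin a) (Fin b) (MvPolynomial (Fin n) F)) (h : Fin n → ℕ) :
    Matrix (Fin a) (Fin b) F :=
  M.map (MvPolynomial.eval fun i => ((h i : ℕ) : F))

/-- The position of `i` in its block, when `β` maps `i` to the number of its block. -/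
def pos {n m : ℕ} (β : Fin n → Fin m) (i : Fin n) : ℕ :=
  (Finset.univ.filter fun i' : Fin n => i' < i ∧ β i' = β i).card

/-- The point `x_i = ∑_{j < L} p_j (y_{β i} + pos β i) ^ j`. -/
def genPoint {n L m : ℕ} (β : Fin n → Fin m) (p : Fin L → ℕ) (y : Fin m → ℕ) : Fin n → ℕ :=
  fun i => ∑ j : Fin L, p j * (y (β i) + pos β i) ^ (j : ℕ)

/-- All points `genPoint β p y` with `p_j, y_c ≤ D`. -/
def grid {n m : ℕ} (L : ℕ) (β : Fin n → Fin m) (D : ℕ) : Finset (Fin n → ℕ) :=
  ((Fintype.piFinset fun _ : Fin L => Finset.range (D + 1)) ×ˢ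
    (Fintype.piFinset fun _ : Fin m => Finset.range (D + 1))).image fun q => genPoint β q.1 q.2

/-- The union of the sets `grid L β D` over all monotone maps `β : [n] → [m]`. -/
def hitSet (n L m D : ℕ) : Finset (Fin n → ℕ) :=
  (Finset.univ.filter fun β : Fin n → Fin m => ∀ i i', i ≤ i' → β i ≤ β i').biUnion
    fun β => grid L β D

/-- The block number `c`. -/
def block {n m : ℕ} (β : Fin n → Fin m) (c : Fin m) : Finset (Fin n) :=
  Finset.univ.filter fun i => β i = c

/-- Every block `B` of `β` has at most one element or satisfies `min(q, r)² + 2 q + |B| ≤ L`, where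
`q = ∑ i ∈ B, o i`. -/
def Serves {n m : ℕ} (o : Fin n → ℕ) (r L : ℕ) (β : Fin n → Fin m) : Prop :=
  ∀ c, (block β c).card ≤ 1 ∨
    min (∑ i ∈ block β c, o i) r ^ 2 + 2 * (∑ i ∈ block β c, o i) + (block β c).card ≤ L

/-- The block structure `k ↦ ⌊W_k / w⌋ + ⌊(W_k + o k) / w⌋` with `W_k = ∑ i < k, o i`; its values
are at most `2 s / w` if `∑ o i ≤ s`. -/
def layout {n : ℕ} (o : Fin n → ℕ) (w s : ℕ) (k : Fin n) : Fin (2 * s / w + 1) :=
  Fin.ofNat (2 * s / w + 1)
    ((∑ i ∈ Finset.Iio k, o i) / w + (∑ i ∈ Finset.Iic k, o i) / w)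

/-- The generator as a tuple of polynomials in `p_j` (`Sum.inl j`) and `y_c` (`Sum.inr c`). -/
noncomputable def genPoly (F : Type u) [Field F] {n : ℕ} (L : ℕ) {m : ℕ} (β : Fin n → Fin m)
    (i : Fin n) : MvPolynomial (Fin L ⊕ Fin m) F :=
  ∑ j : Fin L, MvPolynomial.X (Sum.inl j) *
    (MvPolynomial.X (Sum.inr (β i)) + MvPolynomial.C ((pos β i : ℕ) : F)) ^ (j : ℕ)

/-- The polynomial `f` with `x_i ↦ v_i` for `i ∉ B`: a polynomial in the variables `x_i`, `i ∈ B`,
over the algebra `A`. -/
noncomputable def spec {F : Type u} [CommSemiring F] {n : ℕ} {A : Type v} [CommSemiring A]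
    [Algebra F A] (B : Finset (Fin n)) (v : Fin n → A) (f : MvPolynomial (Fin n) F) :
    MvPolynomial {i // i ∈ B} A :=
  MvPolynomial.aeval (fun i => if h : i ∈ B then MvPolynomial.X ⟨i, h⟩ else MvPolynomial.C (v i)) f

/-- Kalorkoti's measure of `f` with respect to the set `B` of variables: the transcendence degree
over `F` of the algebra generated by the coefficients of `f`, read as a polynomial in the
variables `x_i`, `i ∈ B`, over the ring of polynomials in the other variables. -/
noncomputable def measure {F : Type u} [Field F] {n : ℕ} (B : Finset (Fin n))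
    (f : MvPolynomial (Fin n) F) : Cardinal.{u} :=
  Algebra.trdeg F (Algebra.adjoin F
    (Set.range fun μ => (spec B (MvPolynomial.X : Fin n → MvPolynomial (Fin n) F) f).coeff μ))

end Pool.Agent.H14.KG
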