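import Pool.Agent.H14.KG.Def
import Pool.Agent.H14.KG.DetForm

/-! # The degree of a determinant of a pencil -/

set_option autoImplicit false

universe u

namespace Pool.Agent.H14.KG

open Matrix

private lemma det_deg {F : Type u} [Field F] {σ ι : Type*} [Fintype ι] [DecidableEq ι]
    (N : Matrix ι ι (MvPolynomial σ F)) (b : ι → ℕ) (h : ∀ i j, (N i j).totalDegree ≤ b j) :
    N.det.totalDegree ≤ ∑ j, b j := by
  rw [det_apply]
  refine MvPolynomial.totalDegree_finsetSum_le fun τ _ => ?_
  have h1 : (∏ i, N (τ i) i).totalDegree ≤ ∑ j, b j :=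
    (MvPolynomial.totalDegree_finsetProd _ _).trans
      (Finset.sum_le_sum fun j _ => h _ _)
  rcases Int.units_eq_one_or (Equiv.Perm.sign τ) with h2 | h2
  · rw [h2, one_smul]; exact h1
  · rw [h2, Units.neg_smul, one_smul, MvPolynomial.totalDegree_neg]; exact h1

private lemma poly_deg {F : Type u} [Field F] {n : ℕ} (f : Formula F n) :
    f.poly.totalDegree ≤ (∑ i, f.leaves i) * f.leafDeg := by
  induction f with
  | const c => simp [Formula.poly]
  | leaf i p =>
    have h1 : ∑ j, (Formula.leaf i p : Formula F n).leaves j = 1 := by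
      simp [Formula.leaves]
    rw [h1, one_mul]
    simp only [Formula.poly, Formula.leafDeg]
    rw [Polynomial.aeval_eq_sum_range]
    refine MvPolynomial.totalDegree_finsetSum_le fun k hk => ?_
    refine (MvPolynomial.totalDegree_smul_le _ _).trans ?_
    rw [MvPolynomial.totalDegree_X_pow]
    rw [Finset.mem_range] at hk
    omega
  | add a b iha ihb =>
    simp only [Formula.poly, Formula.leafDeg, Formula.leaves]
    refine (MvPolynomial.totalDegree_add _ _).trans (max_le ?_ ?_)
    · refine iha.trans (Nat.mul_le_mul (Finset.sum_le_sum fun i _ => by omega) (le_max_left _ _))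
    · refine ihb.trans (Nat.mul_le_mul (Finset.sum_le_sum fun i _ => by omega) (le_max_right _ _))
  | mul a b iha ihb =>
    simp only [Formula.poly, Formula.leafDeg, Formula.leaves]
    refine (MvPolynomial.totalDegree_mul _ _).trans ?_
    rw [Finset.sum_add_distrib, add_mul]
    exact add_le_add (iha.trans (Nat.mul_le_mul le_rfl (le_max_left _ _)))
      (ihb.trans (Nat.mul_le_mul le_rfl (le_max_right _ _)))

/-- The total degree of `det (M₀ + U diag(φ) V)` is at most `d` times the number of leaves. -/
theorem totalDegree_det_le {F : Type u} [Field F] [CharZero F] {n r d : ℕ} {κ : Type} [Fintype κ]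
    [DecidableEq κ] (M₀ : Matrix (Fin r) (Fin r) F) (U : Matrix (Fin r) κ F)
    (V : Matrix κ (Fin r) F) (φ : κ → Formula F n) (hd : ∀ c, (φ c).leafDeg ≤ d) :
    (M₀.map (MvPolynomial.C : F →+* MvPolynomial (Fin n) F) +
        U.map (MvPolynomial.C : F →+* MvPolynomial (Fin n) F) *
          diagonal (fun c => (φ c).poly) *
          V.map (MvPolynomial.C : F →+* MvPolynomial (Fin n) F)).det.totalDegree ≤
      (∑ i, ∑ c, (φ c).leaves i) * d := by
  set M : Matrix (Fin r) (Fin r) (MvPolynomial (Fin n) F) := M₀.map MvPolynomial.C with hM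
  set U' : Matrix (Fin r) κ (MvPolynomial (Fin n) F) := U.map MvPolynomial.C with hU
  set V' : Matrix κ (Fin r) (MvPolynomial (Fin n) F) := V.map MvPolynomial.C with hV
  have h1 : (M + U' * diagonal (fun c => (φ c).poly) * V').det =
      (fromBlocks M (-(U' * diagonal (fun c => (φ c).poly))) V' 1).det := by
    rw [det_fromBlocks_one₂₂, Matrix.neg_mul, sub_neg_eq_add]
  rw [h1]
  refine (det_deg _ (Sum.elim (fun _ => 0) (fun c => (φ c).poly.totalDegree)) ?_).trans ?_
  · rintro (i | i) (j | j)
    · simp [hM]
    · simp only [fromBlocks_apply₁₂, Matrix.neg_apply, mul_diagonal, Sum.elim_inr,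
        MvPolynomial.totalDegree_neg]
      refine (MvPolynomial.totalDegree_mul _ _).trans ?_
      simp [hU]
    · simp [hV]
    · simp only [fromBlocks_apply₂₂, Sum.elim_inr]
      rw [one_apply]
      split_ifs <;> simp
  · rw [Fintype.sum_sum_type]
    simp only [Sum.elim_inl, Sum.elim_inr, Finset.sum_const_zero, zero_add]
    rw [Finset.sum_comm, Finset.sum_mul]
    refine Finset.sum_le_sum fun c _ => ?_
    exact (poly_deg (φ c)).trans (Nat.mul_le_mul le_rfl (hd c))

end Pool.Agent.H14.KG
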