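import Pool.Agent.H14.KG.Def

/-! # Rank factorisation of the coefficient matrices -/

set_option autoImplicit false

universe u

namespace Pool.Agent.H14.KG

open Matrix

/-- A matrix of rank `ρ` is a product `U V` with inner dimension `ρ`. -/
theorem exists_rank_factor {F : Type u} [Field F] {a b : ℕ} (A : Matrix (Fin a) (Fin b) F) :
    ∃ (U : Matrix (Fin a) (Fin A.rank) F) (V : Matrix (Fin A.rank) (Fin b) F), A = U * V := by
  classical
  let W := LinearMap.range A.mulVecLin
  let e : Module.Basis (Fin A.rank) F W := Module.finBasisOfFinrankEq F W rfl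
  have hcol : ∀ j, A.mulVecLin (Pi.single j 1) ∈ W := fun j => LinearMap.mem_range_self _ _
  refine ⟨Matrix.of fun i k => (e k : Fin a → F) i,
    Matrix.of fun k j => e.repr ⟨A.mulVecLin (Pi.single j 1), hcol j⟩ k, ?_⟩
  ext i j
  rw [Matrix.mul_apply]
  have h1 := congrArg (fun w : W => (w : Fin a → F) i)
    (e.sum_repr ⟨A.mulVecLin (Pi.single j 1), hcol j⟩)
  beta_reduce at h1
  rw [Submodule.coe_sum, Finset.sum_apply] at h1
  have h2 : (A.mulVecLin (Pi.single j 1)) i = A i j := by
    rw [Matrix.mulVecLin_apply, Matrix.mulVec_single_one]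
    rfl
  have h3 : ((⟨A.mulVecLin (Pi.single j 1), hcol j⟩ : W) : Fin a → F) i = A i j := h2
  rw [h3] at h1
  rw [← h1]
  refine Finset.sum_congr rfl fun k _ => ?_
  rw [Matrix.of_apply, Matrix.of_apply, Submodule.coe_smul, Pi.smul_apply, smul_eq_mul, mul_comm]

/-- Every pencil has the form `A₀ + U diag(φ) V`, the formula `φ_c` repeated `rank A_c` times. -/
theorem pencil_eq_diag {F : Type u} [Field F] {n a b : ℕ} {κ : Type} [Fintype κ] [DecidableEq κ]
    (A₀ : Matrix (Fin a) (Fin b) F) (A : κ → Matrix (Fin a) (Fin b) F) (φ : κ → Formula F n) :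
    ∃ (U : Matrix (Fin a) (Σ c, Fin (A c).rank) F) (V : Matrix (Σ c, Fin (A c).rank) (Fin b) F),
      pencil A₀ A φ = A₀.map (MvPolynomial.C : F →+* MvPolynomial (Fin n) F) +
        U.map (MvPolynomial.C : F →+* MvPolynomial (Fin n) F) *
          diagonal (fun s : Σ c, Fin (A c).rank => (φ s.1).poly) *
          V.map (MvPolynomial.C : F →+* MvPolynomial (Fin n) F) := by
  choose U V hUV using fun c => exists_rank_factor (A c)
  refine ⟨Matrix.of fun i s => U s.1 i s.2, Matrix.of fun s j => V s.1 s.2 j, ?_⟩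
  unfold pencil
  congr 1
  ext1 i j
  rw [Matrix.sum_apply, Matrix.mul_apply, Fintype.sum_sigma]
  refine Finset.sum_congr rfl fun c _ => ?_
  have h1 : A c i j = ∑ k, U c i k * V c k j := by
    conv_lhs => rw [hUV c]
    exact Matrix.mul_apply
  rw [Matrix.smul_apply, Matrix.map_apply, h1, map_sum, smul_eq_mul, Finset.mul_sum]
  refine Finset.sum_congr rfl fun k _ => ?_
  rw [Matrix.mul_diagonal, Matrix.map_apply, Matrix.map_apply, Matrix.of_apply, Matrix.of_apply,
    map_mul]
  ring

end Pool.Agent.H14.KG
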