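import Pool.Agent.H14.KG.Def

/-! # Greedy blocks -/

set_option autoImplicit false

namespace Pool.Agent.H14.KG

/-- The intervals of `layout o w s` are singletons or have weight `≤ w`, if the sum of all weights
is at most `s`. -/
theorem layout_blocks {n : ℕ} (w s : ℕ) (hw : 1 ≤ w) (o : Fin n → ℕ) (hs : ∑ i, o i ≤ s) :
    (∀ i i', i ≤ i' → layout o w s i ≤ layout o w s i') ∧
      ∀ c, (block (layout o w s) c).card ≤ 1 ∨ ∑ i ∈ block (layout o w s) c, o i ≤ w := by
  classical
  set W : Fin n → ℕ := fun i => ∑ j ∈ Finset.Iio i, o j with hW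
  set V : Fin n → ℕ := fun i => ∑ j ∈ Finset.Iic i, o j with hV
  have hWV : ∀ i, W i ≤ V i := fun i =>
    Finset.sum_le_sum_of_subset (fun j hj =>
      Finset.mem_Iic.2 (Finset.mem_Iio.1 hj).le)
  have hVW : ∀ i i', i < i' → V i ≤ W i' := fun i i' h =>
    Finset.sum_le_sum_of_subset (fun j hj =>
      Finset.mem_Iio.2 (lt_of_le_of_lt (Finset.mem_Iic.1 hj) h))
  have hVs : ∀ i, V i ≤ s := fun i =>
    (Finset.sum_le_sum_of_subset (Finset.subset_univ _)).trans hs
  have hWm : ∀ i i', i ≤ i' → W i ≤ W i' := fun i i' h =>
    Finset.sum_le_sum_of_subset (fun j hj =>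
      Finset.mem_Iio.2 (lt_of_lt_of_le (Finset.mem_Iio.1 hj) h))
  have hVm : ∀ i i', i ≤ i' → V i ≤ V i' := fun i i' h =>
    Finset.sum_le_sum_of_subset (fun j hj =>
      Finset.mem_Iic.2 ((Finset.mem_Iic.1 hj).trans h))
  have hw0 : 0 < w := hw
  have hbd : ∀ i, W i / w + V i / w < 2 * s / w + 1 := by
    intro i
    have h1 : W i / w ≤ s / w := Nat.div_le_div_right ((hWV i).trans (hVs i))
    have h2 : V i / w ≤ s / w := Nat.div_le_div_right (hVs i)
    have h3 : s / w + s / w ≤ 2 * s / w := by
      rw [Nat.le_div_iff_mul_le hw0, add_mul]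
      have := Nat.div_mul_le_self s w
      omega
    omega
  have hlay : layout o w s = fun i => (⟨W i / w + V i / w, hbd i⟩ : Fin (2 * s / w + 1)) := by
    funext i
    apply Fin.ext
    exact Nat.mod_eq_of_lt (hbd i)
  rw [hlay]
  refine ⟨?_, ?_⟩
  · intro i i' h
    rw [Fin.mk_le_mk]
    exact add_le_add (Nat.div_le_div_right (hWm i i' h)) (Nat.div_le_div_right (hVm i i' h))
  · intro c
    by_cases hc : (block (fun i => (⟨W i / w + V i / w, hbd i⟩ : Fin (2 * s / w + 1))) c).card ≤ 1
    · exact Or.inl hc
    · right
      set B := block (fun i => (⟨W i / w + V i / w, hbd i⟩ : Fin (2 * s / w + 1))) c with hB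
      have hcard : 1 < B.card := not_le.1 hc
      have hne : B.Nonempty := Finset.card_pos.1 (by omega)
      have hmem : ∀ i ∈ B, W i / w + V i / w = c := by
        intro i hi
        rw [hB] at hi
        unfold block at hi
        rw [Finset.mem_filter] at hi
        exact congrArg Fin.val hi.2
      obtain ⟨p, hp, hpmin⟩ := Finset.exists_min_image B id hne
      obtain ⟨r, hr, hrmax⟩ := Finset.exists_max_image B id hne
      have hpr : p < r := by
        rcases lt_or_ge p r with h | h
        · exact h
        · exfalso
          have : B ⊆ {p} := by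
            intro i hi
            have h1 := hpmin i hi
            have h2 := hrmax i hi
            simp only [id] at h1 h2
            rw [Finset.mem_singleton]
            exact le_antisymm (h2.trans h) h1
          have := Finset.card_le_card this
          simp at this
          omega
      have h1 := hmem p hp
      have h2 := hmem r hr
      have e1 : W p / w ≤ V p / w := Nat.div_le_div_right (hWV p)
      have e2 : V p / w ≤ W r / w := Nat.div_le_div_right (hVW p r hpr)
      have e3 : W r / w ≤ V r / w := Nat.div_le_div_right (hWV r)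
      have e4 : W p / w = V r / w := by omega
      have hsum : W p + ∑ i ∈ B, o i ≤ V r := by
        have hd : Disjoint (Finset.Iio p) B := by
          rw [Finset.disjoint_left]
          intro i hi hiB
          have := hpmin i hiB
          simp only [id] at this
          exact absurd (Finset.mem_Iio.1 hi) (not_lt.2 this)
        rw [hW, hV]
        simp only
        rw [← Finset.sum_union hd]
        refine Finset.sum_le_sum_of_subset (fun i hi => ?_)
        rw [Finset.mem_Iic]
        rcases Finset.mem_union.1 hi with h | h
        · exact ((Finset.mem_Iio.1 h).trans hpr).le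
        · exact hrmax i h
      have f1 : V r < w * (V r / w) + w := Nat.lt_mul_div_succ (V r) hw0
      have f2 : w * (W p / w) ≤ W p := Nat.mul_div_le (W p) w
      rw [← e4] at f1
      omega

end Pool.Agent.H14.KG
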