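import Pool.Agent.H14.KG.Def

/-! # The grid of the generator -/

set_option autoImplicit false

universe u

namespace Pool.Agent.H14.KG

private theorem totalDegree_genPoly_le {F : Type u} [Field F] {n L m : ℕ} (β : Fin n → Fin m)
    (i : Fin n) : (genPoly F L β i).totalDegree ≤ L := by
  unfold genPoly
  refine MvPolynomial.totalDegree_finsetSum_le fun j _ => ?_
  have h1 : (MvPolynomial.X (Sum.inl j) : MvPolynomial (Fin L ⊕ Fin m) F).totalDegree ≤ 1 := by
    rw [MvPolynomial.totalDegree_X]
  have h2 : (MvPolynomial.X (Sum.inr (β i)) +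
      MvPolynomial.C ((pos β i : ℕ) : F) : MvPolynomial (Fin L ⊕ Fin m) F).totalDegree ≤ 1 := by
    refine (MvPolynomial.totalDegree_add _ _).trans ?_
    rw [MvPolynomial.totalDegree_X, MvPolynomial.totalDegree_C]
    simp
  have h3 := MvPolynomial.totalDegree_pow (MvPolynomial.X (Sum.inr (β i)) +
      MvPolynomial.C ((pos β i : ℕ) : F) : MvPolynomial (Fin L ⊕ Fin m) F) (j : ℕ)
  have h4 := MvPolynomial.totalDegree_mul
    (MvPolynomial.X (Sum.inl j) : MvPolynomial (Fin L ⊕ Fin m) F)
    ((MvPolynomial.X (Sum.inr (β i)) + MvPolynomial.C ((pos β i : ℕ) : F)) ^ (j : ℕ))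
  have h5 := j.isLt
  have h6 := Nat.mul_le_mul_left (j : ℕ) h2
  omega

private theorem totalDegree_aeval_le {F : Type u} [Field F] {σ τ : Type} (g : σ → MvPolynomial τ F)
    (L : ℕ) (hg : ∀ i, (g i).totalDegree ≤ L) (f : MvPolynomial σ F) :
    (MvPolynomial.aeval g f).totalDegree ≤ f.totalDegree * L := by
  rw [MvPolynomial.aeval_def, MvPolynomial.eval₂_eq]
  refine MvPolynomial.totalDegree_finsetSum_le fun s hs => ?_
  refine (MvPolynomial.totalDegree_mul _ _).trans ?_
  rw [MvPolynomial.algebraMap_eq, MvPolynomial.totalDegree_C, zero_add]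
  refine (MvPolynomial.totalDegree_finsetProd _ _).trans ?_
  calc ∑ i ∈ s.support, (g i ^ s i).totalDegree ≤ ∑ i ∈ s.support, s i * L := by
        refine Finset.sum_le_sum fun i _ => ?_
        exact (MvPolynomial.totalDegree_pow _ _).trans (Nat.mul_le_mul_left _ (hg i))
    _ = (∑ i ∈ s.support, s i) * L := by rw [Finset.sum_mul]
    _ ≤ f.totalDegree * L := Nat.mul_le_mul_right _ (MvPolynomial.le_totalDegree hs)

private theorem eval_genPoly {F : Type u} [Field F] {n L m : ℕ} (β : Fin n → Fin m)
    (p : Fin L → ℕ) (y : Fin m → ℕ) (x : Fin L ⊕ Fin m → F)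
    (hp : ∀ j, x (Sum.inl j) = ((p j : ℕ) : F)) (hy : ∀ c, x (Sum.inr c) = ((y c : ℕ) : F))
    (i : Fin n) :
    MvPolynomial.eval x (genPoly F L β i) = ((genPoint β p y i : ℕ) : F) := by
  unfold genPoly genPoint
  rw [map_sum, Nat.cast_sum]
  refine Finset.sum_congr rfl fun j _ => ?_
  rw [map_mul, map_pow, map_add, MvPolynomial.eval_X, MvPolynomial.eval_X, MvPolynomial.eval_C,
    hp, hy]
  push_cast
  ring

/-- A polynomial of degree `≤ d` that does not vanish on the generator does not vanish at some
point of `grid L β (d * L)`. -/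
theorem exists_hit_grid {F : Type u} [Field F] [CharZero F] {n L m d : ℕ} (β : Fin n → Fin m)
    (f : MvPolynomial (Fin n) F) (hd : f.totalDegree ≤ d)
    (hne : MvPolynomial.aeval (genPoly F L β) f ≠ 0) :
    ∃ h ∈ grid L β (d * L), MvPolynomial.eval (fun i => ((h i : ℕ) : F)) f ≠ 0 := by
  classical
  by_contra hcon
  push Not at hcon
  apply hne
  have hinj : Function.Injective (fun k : ℕ => (k : F)) := Nat.cast_injective
  refine MvPolynomial.eq_zero_of_eval_zero_at_prod_finset _
    (fun _ => (Finset.range (d * L + 1)).image fun k : ℕ => (k : F)) ?_ ?_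
  · intro i
    rw [Finset.card_image_of_injective _ hinj, Finset.card_range]
    refine Nat.lt_succ_of_le ?_
    refine (MvPolynomial.degreeOf_le_totalDegree _ _).trans ?_
    refine (totalDegree_aeval_le _ L (totalDegree_genPoly_le β) f).trans ?_
    exact Nat.mul_le_mul_right _ hd
  · intro x hx
    have hx' : ∀ i, ∃ k : ℕ, k ∈ Finset.range (d * L + 1) ∧ (k : F) = x i := by
      intro i
      simpa using hx i
    choose k hk1 hk2 using hx'
    have hmem : genPoint β (fun j => k (Sum.inl j)) (fun c => k (Sum.inr c)) ∈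
        grid L β (d * L) := by
      unfold grid
      rw [Finset.mem_image]
      refine ⟨(fun j => k (Sum.inl j), fun c => k (Sum.inr c)), ?_, rfl⟩
      rw [Finset.mem_product, Fintype.mem_piFinset, Fintype.mem_piFinset]
      exact ⟨fun j => hk1 _, fun c => hk1 _⟩
    have h1 := hcon _ hmem
    have h2 : MvPolynomial.eval x (MvPolynomial.aeval (genPoly F L β) f) =
        MvPolynomial.eval (fun i => MvPolynomial.eval x (genPoly F L β i)) f := by
      rw [MvPolynomial.aeval_def, MvPolynomial.eval₂_eq, map_sum,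
        MvPolynomial.eval_eq (fun i => MvPolynomial.eval x (genPoly F L β i)) f]
      refine Finset.sum_congr rfl fun s _ => ?_
      rw [map_mul, map_prod, MvPolynomial.algebraMap_eq, MvPolynomial.eval_C]
      congr 1
      refine Finset.prod_congr rfl fun i _ => ?_
      rw [map_pow]
    rw [h2, ← h1]
    congr 2
    funext i
    exact eval_genPoly β _ _ x (fun j => (hk2 _).symm) (fun c => (hk2 _).symm) i

/-- The sets `grid L β D` are contained in `hitSet`. -/
theorem grid_subset {n m : ℕ} (L : ℕ) (β : Fin n → Fin m) (D : ℕ)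
    (hβ : ∀ i i', i ≤ i' → β i ≤ β i') : grid L β D ⊆ hitSet n L m D := by
  intro x hx
  rw [hitSet, Finset.mem_biUnion]
  exact ⟨β, by rw [Finset.mem_filter]; exact ⟨Finset.mem_univ _, hβ⟩, hx⟩

/-- The number of points of `grid L β D`. -/
theorem card_grid_le {n m : ℕ} (L : ℕ) (β : Fin n → Fin m) (D : ℕ) :
    (grid L β D).card ≤ (D + 1) ^ (L + m) := by
  classical
  unfold grid
  refine Finset.card_image_le.trans ?_
  rw [Finset.card_product, Fintype.card_piFinset, Fintype.card_piFinset]
  simp only [Finset.card_range, Finset.prod_const, Finset.card_univ, Fintype.card_fin]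
  rw [pow_add]

private theorem mem_lower_iff {n : ℕ} (s : Finset (Fin n)) (hs : ∀ i i', i ≤ i' → i' ∈ s → i ∈ s)
    (i : Fin n) : i ∈ s ↔ (i : ℕ) < s.card := by
  constructor
  · intro hi
    have h1 : Finset.Iic i ⊆ s := fun j hj => hs j i (Finset.mem_Iic.1 hj) hi
    have h2 := Finset.card_le_card h1
    rw [Fin.card_Iic] at h2
    omega
  · intro hi
    by_contra hcon
    have h1 : s ⊆ Finset.Iio i := by
      intro j hj
      rw [Finset.mem_Iio]
      by_contra hji
      exact hcon (hs i j (not_lt.1 hji) hj)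
    have h2 := Finset.card_le_card h1
    rw [Fin.card_Iio] at h2
    omega

private theorem card_mono_le (n m : ℕ) :
    (Finset.univ.filter fun β : Fin n → Fin m => ∀ i i', i ≤ i' → β i ≤ β i').card ≤
      (n + 1) ^ m := by
  classical
  have hcard : (n + 1) ^ m = (Fintype.piFinset fun _ : Fin m => Finset.range (n + 1)).card := by
    rw [Fintype.card_piFinset]
    simp
  rw [hcard]
  refine Finset.card_le_card_of_injOn
    (fun β k => (Finset.univ.filter fun i => β i ≤ k).card) ?_ ?_
  · intro β _
    rw [Finset.mem_coe, Fintype.mem_piFinset]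
    intro k
    rw [Finset.mem_range]
    have := Finset.card_filter_le (Finset.univ : Finset (Fin n)) (fun i => β i ≤ k)
    rw [Finset.card_univ, Fintype.card_fin] at this
    exact Nat.lt_succ_of_le this
  · intro β hβ β' hβ' heq
    rw [Finset.mem_coe, Finset.mem_filter] at hβ hβ'
    have key : ∀ (γ : Fin n → Fin m), (∀ i i', i ≤ i' → γ i ≤ γ i') → ∀ k i, γ i ≤ k ↔
        (i : ℕ) < (Finset.univ.filter fun i => γ i ≤ k).card := by
      intro γ hγ k i
      rw [← mem_lower_iff (Finset.univ.filter fun i => γ i ≤ k)]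
      · simp
      · intro a b hab hb
        rw [Finset.mem_filter] at hb ⊢
        exact ⟨Finset.mem_univ _, (hγ a b hab).trans hb.2⟩
    have h1 : ∀ k i, β i ≤ k ↔ β' i ≤ k := by
      intro k i
      rw [key β hβ.2 k i, key β' hβ'.2 k i]
      have := congrFun heq k
      simp only at this
      rw [this]
    funext i
    exact le_antisymm ((h1 _ _).2 le_rfl) ((h1 _ _).1 le_rfl)

/-- The number of points. -/
theorem card_hitSet_le (n L m D : ℕ) :
    (hitSet n L m D).card ≤ (n + 1) ^ m * (D + 1) ^ (L + m) := by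
  classical
  unfold hitSet
  refine (Finset.card_biUnion_le_card_mul _ _ ((D + 1) ^ (L + m))
    fun β _ => card_grid_le L β D).trans ?_
  exact Nat.mul_le_mul_right _ (card_mono_le n m)

end Pool.Agent.H14.KG
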