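import Pool.Agent.H14.KG.Def
import Pool.Agent.H14.KG.Spec
import Pool.Agent.H22.KG.Core

/-! # The hybrid argument: polynomials of small Kalorkoti measure do not vanish on the generator -/

set_option autoImplicit false

universe u v

namespace Pool.Agent.H14.KG

open Pool.H22.KG

section aux

variable {F : Type u} [Field F] {n : ℕ}

/-- Substituting values in the specialisation. -/
private theorem hyb_aeval_spec {A : Type v} [CommRing A] [Algebra F A] {A' : Type v} [CommRing A']
    [Algebra F A'] [Algebra A A'] [IsScalarTower F A A'] (B : Finset (Fin n)) (v : Fin n → A)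
    (z : Fin n → A') (f : MvPolynomial (Fin n) F) :
    MvPolynomial.aeval (fun i : {i // i ∈ B} => z i) (spec B v f) =
      MvPolynomial.aeval (fun i => if i ∈ B then z i else algebraMap A A' (v i)) f := by
  have h1 : ((MvPolynomial.aeval (fun i : {i // i ∈ B} => z i) :
        MvPolynomial {i // i ∈ B} A →ₐ[A] A').restrictScalars F).comp
      (MvPolynomial.aeval (fun i => if h : i ∈ B then MvPolynomial.X ⟨i, h⟩ else
        MvPolynomial.C (v i)) : MvPolynomial (Fin n) F →ₐ[F] MvPolynomial {i // i ∈ B} A) =
      MvPolynomial.aeval (fun i => if i ∈ B then z i else algebraMap A A' (v i)) := by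
    apply MvPolynomial.algHom_ext
    intro i
    by_cases hi : i ∈ B
    · simp [hi]
    · simp [hi]
  exact congrArg (fun χ : MvPolynomial (Fin n) F →ₐ[F] A' => χ f) h1

/-- Positions in one block are different. -/
private theorem hyb_pos_lt {m : ℕ} (β : Fin n → Fin m) {i i' : Fin n} (h : i < i')
    (hβ : β i = β i') : pos β i < pos β i' := by
  refine Finset.card_lt_card ?_
  rw [Finset.ssubset_iff_of_subset]
  · exact ⟨i, by simp [h, hβ], by simp⟩
  · intro k hk
    simp only [Finset.mem_filter, Finset.mem_univ, true_and] at hk ⊢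
    exact ⟨hk.1.trans h, hk.2.trans hβ⟩

private theorem hyb_pos_inj {m : ℕ} (β : Fin n → Fin m) (c : Fin m) :
    Function.Injective (fun i : {i // i ∈ block β c} => pos β i) := by
  rintro ⟨i, hi⟩ ⟨i', hi'⟩ h
  simp only [block, Finset.mem_filter, Finset.mem_univ, true_and] at hi hi'
  rcases lt_trichotomy i i' with h1 | h1 | h1
  · exact absurd h (hyb_pos_lt β h1 (hi.trans hi'.symm)).ne
  · exact Subtype.ext h1
  · exact absurd h (hyb_pos_lt β h1 (hi'.trans hi.symm)).ne'

private theorem hyb_pos_lt_card {m : ℕ} (β : Fin n → Fin m) (c : Fin m) (i : Fin n)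
    (hi : i ∈ block β c) : pos β i < (block β c).card := by
  refine Finset.card_lt_card ?_
  rw [Finset.ssubset_iff_of_subset]
  · exact ⟨i, hi, by simp⟩
  · intro k hk
    simp only [block, Finset.mem_filter, Finset.mem_univ, true_and] at hi hk ⊢
    exact hk.2.trans hi

/-- One block: in the case of at most one variable. -/
private theorem hyb_single [CharZero F] {W : Type v} [CommRing W] [IsDomain W] [Algebra F W]
    {L : ℕ} (hL : 2 ≤ L) (p : Fin L → W) (hp : AlgebraicIndependent F p) {τ : Type*}
    [Subsingleton τ] (lam : τ → ℕ) (Φ : MvPolynomial τ W) (hΦ : Φ ≠ 0) :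
    MvPolynomial.aeval (fun i : τ => zpoly p (lam i)) Φ ≠ 0 := by
  rcases isEmpty_or_nonempty τ with hτ | ⟨⟨i₀⟩⟩
  · obtain ⟨c, rfl⟩ := MvPolynomial.C_surjective τ Φ
    rw [MvPolynomial.aeval_C]
    intro h
    apply hΦ
    have : (Polynomial.C c : Polynomial W) = 0 := h
    rw [Polynomial.C_eq_zero] at this
    rw [this, map_zero]
  · -- the isomorphism with polynomials in one variable
    let η : MvPolynomial τ W →ₐ[W] Polynomial W := MvPolynomial.aeval fun _ => Polynomial.X
    let θ : Polynomial W →ₐ[W] MvPolynomial τ W := Polynomial.aeval (MvPolynomial.X i₀)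
    have hθη : θ.comp η = AlgHom.id W _ := by
      apply MvPolynomial.algHom_ext
      intro i
      simp [η, θ, Subsingleton.elim i i₀]
    have hne : η Φ ≠ 0 := by
      intro h
      apply hΦ
      have h1 : θ (η Φ) = Φ := congrArg (fun χ : MvPolynomial τ W →ₐ[W] MvPolynomial τ W => χ Φ) hθη
      rw [← h1, h, map_zero]
    have h2 : (Polynomial.aeval (zpoly p (lam i₀)) : Polynomial W →ₐ[W] Polynomial W).comp η =
        MvPolynomial.aeval (fun i : τ => zpoly p (lam i)) := by
      apply MvPolynomial.algHom_ext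
      intro i
      simp [η, Subsingleton.elim i i₀]
    have h3 := single (F := F) hL p hp (lam i₀) (η Φ) hne
    rw [← h2]
    exact h3

end aux

section hybrid

variable {F : Type u} [Field F] {n : ℕ} (L : ℕ) {m : ℕ} (β : Fin n → Fin m)

/-- The ring of all variables: `p_j`, `y_c`, `x_i`. -/
private abbrev HybRing (F : Type u) [Field F] (n L m : ℕ) : Type u :=
  MvPolynomial ((Fin L ⊕ Fin m) ⊕ Fin n) F

/-- The hybrid point: the blocks before `c` are processed. -/
private noncomputable def hybPt (c : ℕ) (i : Fin n) : HybRing F n L m :=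
  if (β i : ℕ) < c then MvPolynomial.rename Sum.inl (genPoly F L β i)
  else MvPolynomial.X (Sum.inr i)

/-- The variable `y_c` is made the variable of polynomials in one variable. -/
private noncomputable def hybHom (F : Type u) [Field F] (n L : ℕ) {m : ℕ} (c : Fin m) :
    HybRing F n L m →ₐ[F] Polynomial (HybRing F n L m) :=
  MvPolynomial.aeval (Sum.elim (Sum.elim
    (fun j => Polynomial.C (MvPolynomial.X (Sum.inl (Sum.inl j))))
    (fun c' => if c' = c then Polynomial.X else
      Polynomial.C (MvPolynomial.X (Sum.inl (Sum.inr c')))))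
    (fun i => Polynomial.C (MvPolynomial.X (Sum.inr i))))

private theorem hybHom_of_mem (c : Fin m) (i : Fin n) (hi : β i = c) :
    hybHom F n L c (hybPt L β ((c : ℕ) + 1) i) =
      zpoly (fun j : Fin L => (MvPolynomial.X (Sum.inl (Sum.inl j)) : HybRing F n L m))
        (pos β i) := by
  have h1 : (β i : ℕ) < (c : ℕ) + 1 := by rw [hi]; exact Nat.lt_succ_self _
  rw [hybPt, if_pos h1, genPoly, zpoly, map_sum, map_sum]
  refine Finset.sum_congr rfl fun j _ => ?_
  simp only [map_mul, map_pow, map_add, MvPolynomial.rename_X, hi]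
  simp [hybHom]

private theorem hybHom_of_not_mem (c : Fin m) (i : Fin n) (hi : β i ≠ c) :
    hybHom F n L c (hybPt L β ((c : ℕ) + 1) i) =
      Polynomial.C (hybPt L β (c : ℕ) i) := by
  have hne : (β i : ℕ) ≠ (c : ℕ) := fun h => hi (Fin.ext h)
  by_cases h1 : (β i : ℕ) < (c : ℕ)
  · have h2 : (β i : ℕ) < (c : ℕ) + 1 := by omega
    rw [hybPt, hybPt, if_pos h1, if_pos h2, genPoly, map_sum, map_sum, map_sum]
    refine Finset.sum_congr rfl fun j _ => ?_
    simp only [map_mul, map_pow, map_add, MvPolynomial.rename_X]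
    simp [hybHom, hi]
  · have h2 : ¬ (β i : ℕ) < (c : ℕ) + 1 := by omega
    rw [hybPt, hybPt, if_neg h1, if_neg h2]
    simp [hybHom]

private theorem hyb_step [CharZero F] (hL : 2 ≤ L) (f : MvPolynomial (Fin n) F) (c : Fin m)
    (h : (block β c).card ≤ 1 ∨
      ∃ t : ℕ, measure (block β c) f ≤ (t : Cardinal.{u}) ∧ t + (block β c).card ≤ L)
    (hc : MvPolynomial.aeval (hybPt (F := F) L β (c : ℕ)) f ≠ 0) :
    MvPolynomial.aeval (hybPt (F := F) L β ((c : ℕ) + 1)) f ≠ 0 := by
  classical
  set R := HybRing F n L m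
  set v : Fin n → R := hybPt L β (c : ℕ) with hv
  set B := block β c with hB
  have hmemB : ∀ i, i ∈ B ↔ β i = c := fun i => by simp [hB, block]
  let p : Fin L → R := fun j => MvPolynomial.X (Sum.inl (Sum.inl j))
  have hp : AlgebraicIndependent F p := by
    have h1 := MvPolynomial.algebraicIndependent_X ((Fin L ⊕ Fin m) ⊕ Fin n) F
    exact h1.comp (fun j : Fin L => Sum.inl (Sum.inl j))
      (Sum.inl_injective.comp Sum.inl_injective)
  -- the block polynomial
  have hΦ : spec B v f ≠ 0 := by
    intro h0
    apply hc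
    have h1 := hyb_aeval_spec (A := R) (A' := R) B v v f
    rw [h0, map_zero] at h1
    rw [h1]
    congr 1
    congr 1
    funext i
    by_cases hi : i ∈ B
    · simp [hi]
    · simp [hi]
  -- it does not vanish on the generator
  have hkey : MvPolynomial.aeval (fun i : {i // i ∈ B} => zpoly p (pos β i)) (spec B v f) ≠ 0 := by
    rcases h with h1 | ⟨t, ht, htL⟩
    · have : Subsingleton {i // i ∈ B} := Finset.card_le_one_iff_subsingleton_coe.mp h1
      exact hyb_single hL p hp _ _ hΦ
    · obtain ⟨g, hg⟩ := exists_gens_of_measure_le (Ω := R) B v f t ht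
      exact core_index (fun i : {i // i ∈ B} => pos β i) (hyb_pos_inj β c)
        (fun i => hyb_pos_lt_card β c i i.2) p hp g _ hΦ hg htL
  -- transport
  intro h0
  apply hkey
  have h1 := hyb_aeval_spec (A := R) (A' := Polynomial R) B v
    (fun i => zpoly p (pos β i)) f
  rw [h1]
  have h2 : hybHom F n L c (MvPolynomial.aeval (hybPt L β ((c : ℕ) + 1)) f) =
      MvPolynomial.aeval (fun i => if i ∈ B then zpoly p (pos β i) else
        algebraMap R (Polynomial R) (v i)) f := by
    have h3 : (hybHom F n L c).comp (MvPolynomial.aeval (hybPt L β ((c : ℕ) + 1))) =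
        MvPolynomial.aeval (fun i => if i ∈ B then zpoly p (pos β i) else
        algebraMap R (Polynomial R) (v i)) := by
      apply MvPolynomial.algHom_ext
      intro i
      by_cases hi : i ∈ B
      · simp only [AlgHom.comp_apply, MvPolynomial.aeval_X, hi, if_true]
        exact hybHom_of_mem L β c i ((hmemB i).mp hi)
      · simp only [AlgHom.comp_apply, MvPolynomial.aeval_X, hi, if_false]
        exact hybHom_of_not_mem L β c i (fun h => hi ((hmemB i).mpr h))
    exact congrArg (fun χ : MvPolynomial (Fin n) F →ₐ[F] Polynomial R => χ f) h3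
  rw [← h2, h0, map_zero]

end hybrid

/-- If every block `B` of `β` is a singleton (or empty) or satisfies `measure B f + |B| ≤ L`, then
the nonzero polynomial `f` does not vanish on the generator. -/
theorem gen_ne_zero {F : Type u} [Field F] [CharZero F] {n L m : ℕ} (hL : 2 ≤ L)
    (β : Fin n → Fin m) (f : MvPolynomial (Fin n) F) (hf : f ≠ 0)
    (h : ∀ c, (block β c).card ≤ 1 ∨
      ∃ t : ℕ, measure (block β c) f ≤ (t : Cardinal.{u}) ∧ t + (block β c).card ≤ L) :
    MvPolynomial.aeval (genPoly F L β) f ≠ 0 := by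
  have h0 : MvPolynomial.aeval (hybPt (F := F) L β 0) f ≠ 0 := by
    have h1 : (hybPt L β 0 : Fin n → HybRing F n L m) = fun i => MvPolynomial.X (Sum.inr i) := by
      funext i
      simp [hybPt]
    rw [h1]
    intro h2
    apply hf
    have h3 : MvPolynomial.rename (Sum.inr : Fin n → (Fin L ⊕ Fin m) ⊕ Fin n) f = 0 := by
      rw [← h2, MvPolynomial.rename_eq_aeval]
      rfl
    exact (MvPolynomial.rename_injective _ Sum.inr_injective) (by rw [h3, map_zero])
  have hk : ∀ c : ℕ, c ≤ m → MvPolynomial.aeval (hybPt (F := F) L β c) f ≠ 0 := by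
    intro c
    induction c with
    | zero => intro _; exact h0
    | succ c ih =>
      intro hc
      exact hyb_step L β hL f ⟨c, hc⟩ (h _) (ih (by omega))
  have hm := hk m le_rfl
  intro h1
  apply hm
  have h2 : (MvPolynomial.rename Sum.inl : MvPolynomial (Fin L ⊕ Fin m) F →ₐ[F]
      HybRing F n L m).comp (MvPolynomial.aeval (genPoly F L β)) =
      MvPolynomial.aeval (hybPt L β m) := by
    apply MvPolynomial.algHom_ext
    intro i
    simp [hybPt]
  rw [← h2, AlgHom.comp_apply, h1, map_zero]

end Pool.Agent.H14.KG
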