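import Pool.Agent.H14.KG.Def

/-! # Matrices of polynomials as pencils: one formula for each monomial -/

set_option autoImplicit false

universe u

namespace Pool.Agent.H14.KG

section defs

variable {F : Type u} [Field F] {n a b : ℕ}

/-- The matrix of the coefficients of the monomial `x^μ`. -/
noncomputable def coeffMat (M : Matrix (Fin a) (Fin b) (MvPolynomial (Fin n) F))
    (μ : Fin n →₀ ℕ) : Matrix (Fin a) (Fin b) F :=
  M.map (MvPolynomial.coeff μ)

/-- The exponents that occur in the entries of `M`. -/
noncomputable def expSet (M : Matrix (Fin a) (Fin b) (MvPolynomial (Fin n) F)) :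
    Finset (Fin n →₀ ℕ) :=
  Finset.univ.biUnion fun q : Fin a × Fin b => (M q.1 q.2).support

/-- The number of monomials that contain `x_i`, the monomial `x^μ` counted as often as the rank
of the matrix of its coefficients. -/
noncomputable def monOcc (M : Matrix (Fin a) (Fin b) (MvPolynomial (Fin n) F)) (i : Fin n) : ℕ :=
  ∑ μ ∈ (expSet M).filter (fun μ => μ i ≠ 0), (coeffMat M μ).rank

/-- The product of the leaves `x_i ^ (μ i)` over a list of indices, `μ i ≠ 0`. -/
noncomputable def monFormula (F : Type u) [Field F] {n : ℕ} (μ : Fin n →₀ ℕ) :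
    List (Fin n) → Formula F n
  | [] => .const 1
  | i :: l => if μ i = 0 then monFormula F μ l else
      .mul (.leaf i (Polynomial.X ^ (μ i))) (monFormula F μ l)

end defs

section lemmas

variable {F : Type u} [Field F] {n a b : ℕ}

theorem monFormula_poly (μ : Fin n →₀ ℕ) (l : List (Fin n)) :
    (monFormula F μ l).poly = (l.map fun i => (MvPolynomial.X i : MvPolynomial (Fin n) F) ^ μ i).prod := by
  induction l with
  | nil => simp [monFormula, Formula.poly]
  | cons i l ih =>
    rw [monFormula]
    split
    · rename_i h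
      simp [ih, h]
    · simp [Formula.poly, ih]

theorem monFormula_leaves (μ : Fin n →₀ ℕ) (i : Fin n) (l : List (Fin n)) (hl : l.Nodup) :
    (monFormula F μ l).leaves i = if i ∈ l ∧ μ i ≠ 0 then 1 else 0 := by
  induction l with
  | nil => simp [monFormula, Formula.leaves]
  | cons j l ih =>
    rw [List.nodup_cons] at hl
    rw [monFormula]
    by_cases hj : μ j = 0
    · rw [if_pos hj, ih hl.2]
      by_cases hij : i = j
      · subst hij
        simp [hj]
      · simp [hij]
    · rw [if_neg hj, Formula.leaves, Formula.leaves, ih hl.2]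
      by_cases hij : j = i
      · subst hij
        simp [hj, hl.1]
      · have : i ≠ j := fun h => hij h.symm
        simp [hij, this]

theorem monFormula_leafDeg (μ : Fin n →₀ ℕ) (d : ℕ) (hd : ∀ i, μ i ≤ d) (l : List (Fin n)) :
    (monFormula F μ l).leafDeg ≤ d := by
  induction l with
  | nil => simp [monFormula, Formula.leafDeg]
  | cons j l ih =>
    rw [monFormula]
    split
    · exact ih
    · rw [Formula.leafDeg, Formula.leafDeg]
      refine max_le ?_ ih
      rw [Polynomial.natDegree_X_pow]
      exact hd j

theorem monFormula_finRange (μ : Fin n →₀ ℕ) :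
    (monFormula F μ (List.finRange n)).poly = MvPolynomial.monomial μ 1 := by
  rw [monFormula_poly, MvPolynomial.monomial_eq, MvPolynomial.C_1, one_mul,
    Finsupp.prod_fintype _ _ (fun i => pow_zero _), ← List.ofFn_eq_map, List.prod_ofFn]

theorem eq_pencil (M : Matrix (Fin a) (Fin b) (MvPolynomial (Fin n) F)) :
    M = pencil 0 (fun μ : {μ // μ ∈ expSet M} => coeffMat M μ.1)
      (fun μ => monFormula F μ.1 (List.finRange n)) := by
  refine Matrix.ext fun i j => ?_
  rw [pencil, Matrix.add_apply, Matrix.sum_apply]
  simp only [Matrix.map_apply, Matrix.zero_apply, map_zero, zero_add, Matrix.smul_apply,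
    monFormula_finRange, smul_eq_mul, coeffMat]
  have h1 : ∀ μ : Fin n →₀ ℕ, MvPolynomial.monomial μ (1 : F) * MvPolynomial.C ((M i j).coeff μ) =
      MvPolynomial.monomial μ ((M i j).coeff μ) := by
    intro μ
    rw [mul_comm, MvPolynomial.C_mul_monomial, mul_one]
  simp only [h1]
  have h2 : ∑ μ : {μ // μ ∈ expSet M}, MvPolynomial.monomial μ.1 ((M i j).coeff μ.1) =
      ∑ μ ∈ expSet M, MvPolynomial.monomial μ ((M i j).coeff μ) :=
    Finset.sum_coe_sort (expSet M) (fun μ => MvPolynomial.monomial μ ((M i j).coeff μ))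
  refine Eq.trans ?_ h2.symm
  conv_lhs => rw [MvPolynomial.as_sum (M i j)]
  refine Finset.sum_subset ?_ ?_
  · intro μ hμ
    exact Finset.mem_biUnion.mpr ⟨(i, j), Finset.mem_univ _, hμ⟩
  · intro μ _ hμ
    rw [MvPolynomial.notMem_support_iff] at hμ
    rw [hμ, MvPolynomial.monomial_zero]

theorem occ_eq_monOcc (M : Matrix (Fin a) (Fin b) (MvPolynomial (Fin n) F)) (i : Fin n) :
    occ (fun μ : {μ // μ ∈ expSet M} => coeffMat M μ.1)
      (fun μ => monFormula F μ.1 (List.finRange n)) i = monOcc M i := by
  have h0 : occ (fun μ : {μ // μ ∈ expSet M} => coeffMat M μ.1)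
      (fun μ => monFormula F μ.1 (List.finRange n)) i =
      ∑ μ ∈ expSet M, (coeffMat M μ).rank * (monFormula F μ (List.finRange n)).leaves i :=
    Finset.sum_coe_sort (expSet M) (fun μ => (coeffMat M μ).rank *
      (monFormula F μ (List.finRange n)).leaves i)
  rw [h0, monOcc, Finset.sum_filter]
  refine Finset.sum_congr rfl fun μ _ => ?_
  rw [monFormula_leaves μ i _ (List.nodup_finRange n)]
  by_cases h : μ i = 0
  · simp [h]
  · simp [h]

end lemmas

end Pool.Agent.H14.KG
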