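import Pool.Agent.H14.KG.Def

/-! # Symbolic rank and values: the threshold form -/

set_option autoImplicit false

universe u

namespace Pool.Agent.H14.KG

private theorem thr_cols {K : Type u} [Field K] {a b : ℕ} (A : Matrix (Fin a) (Fin b) K) {r : ℕ}
    (hr : r ≤ A.rank) : ∃ e : Fin r → Fin b, LinearIndependent K (fun j => A.col (e j)) := by
  rw [Matrix.rank_eq_finrank_span_cols] at hr
  obtain ⟨g, hg, -, hli⟩ := Submodule.exists_fun_fin_finrank_span_eq K (Set.range A.col)
  choose e he using hg
  refine ⟨fun j => e (Fin.castLE hr j), ?_⟩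
  have h1 : (fun j => A.col (e (Fin.castLE hr j))) = g ∘ Fin.castLE hr :=
    funext fun j => he _
  rw [h1]
  exact hli.comp _ (Fin.castLE_injective hr)

theorem thr_minor {K : Type u} [Field K] {a b : ℕ} (A : Matrix (Fin a) (Fin b) K) {r : ℕ}
    (hr : r ≤ A.rank) : ∃ (e : Fin r → Fin a) (e' : Fin r → Fin b), (A.submatrix e e').det ≠ 0 := by
  obtain ⟨e', he'⟩ := thr_cols A hr
  have h1 : r ≤ ((A.submatrix id e').transpose).rank := by
    have h2 : LinearIndependent K ((A.submatrix id e').transpose).row := he'
    rw [h2.rank_matrix, Fintype.card_fin]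
  obtain ⟨e, he⟩ := thr_cols _ h1
  refine ⟨e, e', ?_⟩
  have h3 : LinearIndependent K (A.submatrix e e').row := he
  rw [Matrix.linearIndependent_rows_iff_isUnit, Matrix.isUnit_iff_isUnit_det] at h3
  exact h3.ne_zero

theorem le_rank_of_minor {K : Type u} [Field K] {a b : ℕ} (A : Matrix (Fin a) (Fin b) K) {r : ℕ}
    (e : Fin r → Fin a) (e' : Fin r → Fin b) (h : (A.submatrix e e').det ≠ 0) : r ≤ A.rank := by
  have h1 : IsUnit (A.submatrix e e') := by
    rw [Matrix.isUnit_iff_isUnit_det]
    exact h.isUnit
  have h2 := Matrix.rank_of_isUnit _ h1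
  rw [Fintype.card_fin] at h2
  have h3 := Matrix.rank_submatrix_le A e e'
  omega

/-- The rank at a point is at most the symbolic rank. -/
theorem rank_eval_le {F : Type u} [Field F] {σ : Type} {a b : ℕ}
    (M : Matrix (Fin a) (Fin b) (MvPolynomial σ F)) (x : σ → F) :
    (M.map (MvPolynomial.eval x)).rank ≤ symRank M := by
  obtain ⟨e, e', hdet⟩ := thr_minor (M.map (MvPolynomial.eval x))
    (r := (M.map (MvPolynomial.eval x)).rank) le_rfl
  refine le_rank_of_minor _ e e' ?_
  have h1 : (M.submatrix e e').det ≠ 0 := by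
    intro h0
    apply hdet
    have h2 := RingHom.map_det (MvPolynomial.eval x) (M.submatrix e e')
    rw [h0, map_zero] at h2
    exact h2.symm
  have h2 := RingHom.map_det (algebraMap (MvPolynomial σ F)
      (FractionRing (MvPolynomial σ F))) (M.submatrix e e')
  intro h0
  apply h1
  have h3 : algebraMap (MvPolynomial σ F) (FractionRing (MvPolynomial σ F))
      (M.submatrix e e').det = 0 := by
    rw [h2]
    exact h0
  exact (map_eq_zero_iff _ (IsFractionRing.injective (MvPolynomial σ F)
    (FractionRing (MvPolynomial σ F)))).1 h3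

/-- Rank at least `r` gives a nonzero minor of order `r`. -/
theorem exists_minor {F : Type u} [Field F] {σ : Type} {a b : ℕ}
    (M : Matrix (Fin a) (Fin b) (MvPolynomial σ F)) (r : ℕ) (hr : r ≤ symRank M) :
    ∃ (e : Fin r → Fin a) (e' : Fin r → Fin b), (M.submatrix e e').det ≠ 0 := by
  obtain ⟨e, e', hdet⟩ := thr_minor (M.map (algebraMap (MvPolynomial σ F)
    (FractionRing (MvPolynomial σ F)))) (r := r) hr
  refine ⟨e, e', fun h0 => hdet ?_⟩
  have h2 := RingHom.map_det (algebraMap (MvPolynomial σ F)
    (FractionRing (MvPolynomial σ F))) (M.submatrix e e')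
  rw [h0, map_zero] at h2
  exact h2.symm

/-- A nonzero minor of order `r` gives rank at least `r`. -/
theorem le_symRank_of_minor {F : Type u} [Field F] {σ : Type} {a b r : ℕ}
    (M : Matrix (Fin a) (Fin b) (MvPolynomial σ F)) (e : Fin r → Fin a) (e' : Fin r → Fin b)
    (h : (M.submatrix e e').det ≠ 0) : r ≤ symRank M := by
  refine le_rank_of_minor _ e e' ?_
  have h2 := RingHom.map_det (algebraMap (MvPolynomial σ F)
      (FractionRing (MvPolynomial σ F))) (M.submatrix e e')
  intro h0
  apply h
  have h3 : algebraMap (MvPolynomial σ F) (FractionRing (MvPolynomial σ F))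
      (M.submatrix e e').det = 0 := by
    rw [h2]
    exact h0
  exact (map_eq_zero_iff _ (IsFractionRing.injective (MvPolynomial σ F)
    (FractionRing (MvPolynomial σ F)))).1 h3

/-- If every nonzero minor of order `r` is nonzero at some point of `H`, then the symbolic rank is
less than `r` exactly when all ranks at the points of `H` are less than `r`. -/
theorem symRank_lt_iff {F : Type u} [Field F] {n a b : ℕ}
    (M : Matrix (Fin a) (Fin b) (MvPolynomial (Fin n) F)) (H : Finset (Fin n → ℕ)) (r : ℕ)
    (h : ∀ (e : Fin r → Fin a) (e' : Fin r → Fin b), (M.submatrix e e').det ≠ 0 →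
        ∃ h ∈ H, MvPolynomial.eval (fun i => ((h i : ℕ) : F)) (M.submatrix e e').det ≠ 0) :
    symRank M < r ↔ ∀ x ∈ H, (valAt M x).rank < r := by
  constructor
  · intro h1 x _
    exact (rank_eval_le M _).trans_lt h1
  · intro h1
    by_contra hcon
    push Not at hcon
    obtain ⟨e, e', h2⟩ := exists_minor M r hcon
    obtain ⟨x, hx, hx0⟩ := h e e' h2
    refine absurd (h1 x hx) (not_lt.mpr ?_)
    refine le_rank_of_minor _ e e' ?_
    rw [RingHom.map_det] at hx0
    exact hx0

end Pool.Agent.H14.KG
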