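import Pool.Agent.H14.KG.Def
import Pool.Agent.H14.KG.Spec
import Pool.Agent.H14.KG.DPar
import Pool.Agent.H14.KG.Degree
import Pool.Agent.H14.KG.Fact
import Pool.Agent.H14.KG.Greedy
import Pool.Agent.H14.KG.Grid
import Pool.Agent.H14.KG.Hybrid
import Pool.Agent.H14.KG.Thr
import Pool.Agent.H14.KG.Mono

/-! # The rank of a pencil is found on the grid of the generator -/

set_option autoImplicit false

universe u

namespace Pool.Agent.H14.KG

open Matrix

/-- Every nonzero minor of order `r` of a pencil is nonzero at a point of `grid L β (s d L)` if the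
blocks of `β` serve. -/
theorem minor_hit_block {n m s r d L : ℕ} (hL : 2 ≤ L) {F : Type u} [Field F] [CharZero F]
    {a b : ℕ} {κ : Type} [Fintype κ] (A₀ : Matrix (Fin a) (Fin b) F)
    (A : κ → Matrix (Fin a) (Fin b) F) (φ : κ → Formula F n) (β : Fin n → Fin m)
    (hβ : Serves (fun i => max 1 (occ A φ i)) r L β)
    (hs : ∑ i, occ A φ i ≤ s) (hd : ∀ c, (φ c).leafDeg ≤ d)
    (e : Fin r → Fin a) (e' : Fin r → Fin b)
    (hne : ((pencil A₀ A φ).submatrix e e').det ≠ 0) :
    ∃ h ∈ grid L β (s * d * L),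
      MvPolynomial.eval (fun i => ((h i : ℕ) : F)) ((pencil A₀ A φ).submatrix e e').det ≠ 0 := by
  classical
  obtain ⟨U, V, hUV⟩ := pencil_eq_diag A₀ A φ
  -- the minor in the form `det (M₀ + U' diag V')`
  have hocc : ∀ i, ∑ c : (Σ c, Fin (A c).rank), (φ c.1).leaves i = occ A φ i := by
    intro i
    rw [Fintype.sum_sigma]
    simp [occ]
  have hminor : ((pencil A₀ A φ).submatrix e e').det =
      ((A₀.submatrix e e').map (MvPolynomial.C : F →+* MvPolynomial (Fin n) F) +
        (U.submatrix e id).map (MvPolynomial.C : F →+* MvPolynomial (Fin n) F) *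
          diagonal (fun s : Σ c, Fin (A c).rank => (φ s.1).poly) *
          (V.submatrix id e').map (MvPolynomial.C : F →+* MvPolynomial (Fin n) F)).det := by
    congr 1
    rw [hUV]
    ext i j : 2
    simp [Matrix.mul_apply, Matrix.map_apply, Matrix.submatrix_apply]
  have hgen : MvPolynomial.aeval (genPoly F L β) ((pencil A₀ A φ).submatrix e e').det ≠ 0 := by
    refine gen_ne_zero hL β _ hne ?_
    intro c
    by_cases h0 : (block β c).card ≤ 1
    · exact Or.inl h0
    · have h1 := (hβ c).resolve_left h0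
      set q := ∑ i ∈ block β c, max 1 (occ A φ i) with hq
      have hq1 : (block β c).card ≤ q := by
        rw [hq, Finset.card_eq_sum_ones]
        exact Finset.sum_le_sum fun i _ => le_max_left _ _
      refine Or.inr ⟨min q r ^ 2 + 2 * q, ?_, h1⟩
      rw [hminor]
      refine measure_det_le _ _ _ _ _ q (by omega) ?_
      rw [hq]
      refine Finset.sum_le_sum fun i _ => ?_
      rw [hocc]
      exact le_max_right _ _
  have hdeg : ((pencil A₀ A φ).submatrix e e').det.totalDegree ≤ s * d := by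
    rw [hminor]
    have h1 := totalDegree_det_le (A₀.submatrix e e') (U.submatrix e id) (V.submatrix id e')
      (fun s : Σ c, Fin (A c).rank => φ s.1) (fun c => hd c.1)
    refine h1.trans ?_
    have h2 : ∑ i, ∑ c : (Σ c, Fin (A c).rank), (φ c.1).leaves i ≤ s := by
      simpa only [hocc] using hs
    exact Nat.mul_le_mul_right _ h2
  exact exists_hit_grid β _ hdeg hgen

/-- Pencils, block form. -/
theorem pencil_block {n m s r d L : ℕ} (hL : 2 ≤ L) {F : Type u} [Field F] [CharZero F]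
    {a b : ℕ} {κ : Type} [Fintype κ] (A₀ : Matrix (Fin a) (Fin b) F)
    (A : κ → Matrix (Fin a) (Fin b) F) (φ : κ → Formula F n) (β : Fin n → Fin m)
    (hβ : Serves (fun i => max 1 (occ A φ i)) r L β)
    (hs : ∑ i, occ A φ i ≤ s) (hd : ∀ c, (φ c).leafDeg ≤ d) :
    symRank (pencil A₀ A φ) < r ↔
      ∀ x ∈ grid L β (s * d * L), (valAt (pencil A₀ A φ) x).rank < r :=
  symRank_lt_iff _ _ r fun e e' hne => minor_hit_block hL A₀ A φ β hβ hs hd e e' hne

/-- The layout serves. -/
theorem layout_serves {n : ℕ} (w s r : ℕ) (hw : 1 ≤ w) (o : Fin n → ℕ) (ho : ∀ i, 1 ≤ o i)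
    (hs : ∑ i, o i ≤ s) : Serves o r (min w r ^ 2 + 3 * w) (layout o w s) := by
  intro c
  rcases (layout_blocks w s hw o hs).2 c with h1 | h1
  · exact Or.inl h1
  · right
    have h2 : (block (layout o w s) c).card ≤ ∑ i ∈ block (layout o w s) c, o i := by
      rw [Finset.card_eq_sum_ones]
      exact Finset.sum_le_sum fun i _ => ho i
    have h3 : min (∑ i ∈ block (layout o w s) c, o i) r ^ 2 ≤ min w r ^ 2 :=
      Nat.pow_le_pow_left (min_le_min_right _ h1) 2
    omega

/-- Singletons serve. -/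
theorem serves_id {n : ℕ} (o : Fin n → ℕ) (r : ℕ) : Serves o r 2 (id : Fin n → Fin n) := by
  intro c
  left
  rw [Finset.card_le_one]
  intro i hi j hj
  simp only [block, Finset.mem_filter, Finset.mem_univ, true_and, id] at hi hj
  rw [hi, hj]

/-- Pencils, hitting set form. -/
theorem pencil_hit (n s w r d : ℕ) (hw : 1 ≤ w) {F : Type u} [Field F] [CharZero F]
    {a b : ℕ} {κ : Type} [Fintype κ] (A₀ : Matrix (Fin a) (Fin b) F)
    (A : κ → Matrix (Fin a) (Fin b) F) (φ : κ → Formula F n)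
    (hs : ∑ i, max 1 (occ A φ i) ≤ s) (hd : ∀ c, (φ c).leafDeg ≤ d) :
    symRank (pencil A₀ A φ) < r ↔
      ∀ x ∈ hitSet n (min w r ^ 2 + 3 * w) (2 * s / w + 1) (s * d * (min w r ^ 2 + 3 * w)),
        (valAt (pencil A₀ A φ) x).rank < r := by
  have hβ := (layout_blocks w s hw (fun i => max 1 (occ A φ i)) hs).1
  have hserves := layout_serves w s r hw (fun i => max 1 (occ A φ i))
    (fun i => le_max_left _ _) hs
  have hs' : ∑ i, occ A φ i ≤ s :=
    (Finset.sum_le_sum fun i _ => le_max_right _ _).trans hs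
  have h1 := pencil_block (by omega) A₀ A φ _ hserves hs' hd
  constructor
  · intro h2 x _
    exact (rank_eval_le _ _).trans_lt h2
  · intro h2
    exact h1.2 fun x hx => h2 x (grid_subset _ _ _ hβ hx)

/-- Matrices of polynomials, hitting set form. -/
theorem matrix_hit (n s w r d : ℕ) (hw : 1 ≤ w) {F : Type u} [Field F] [CharZero F]
    {a b : ℕ} (M : Matrix (Fin a) (Fin b) (MvPolynomial (Fin n) F))
    (hs : ∑ i, max 1 (monOcc M i) ≤ s) (hd : ∀ μ ∈ expSet M, ∀ i, μ i ≤ d) :
    symRank M < r ↔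
      ∀ x ∈ hitSet n (min w r ^ 2 + 3 * w) (2 * s / w + 1) (s * d * (min w r ^ 2 + 3 * w)),
        (valAt M x).rank < r := by
  have h1 := pencil_hit n s w r d hw (0 : Matrix (Fin a) (Fin b) F)
    (fun μ : {μ // μ ∈ expSet M} => coeffMat M μ.1)
    (fun μ => monFormula F μ.1 (List.finRange n)) (by simpa only [occ_eq_monOcc] using hs)
    (fun μ => monFormula_leafDeg μ.1 d (hd μ.1 μ.2) _)
  rw [← eq_pencil] at h1
  exact h1

/-- The Kalorkoti generator: polynomials of degree `≤ d` and small measure. -/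
theorem hit_of_measure {F : Type u} [Field F] [CharZero F] {n L m d : ℕ} (hL : 2 ≤ L)
    (β : Fin n → Fin m) (f : MvPolynomial (Fin n) F)
    (hf : f ≠ 0) (hd : f.totalDegree ≤ d)
    (h : ∀ c, (block β c).card ≤ 1 ∨
      measure (block β c) f + (((block β c).card : ℕ) : Cardinal.{u}) ≤ ((L : ℕ) : Cardinal.{u})) :
    ∃ x ∈ grid L β (d * L), MvPolynomial.eval (fun i => ((x i : ℕ) : F)) f ≠ 0 := by
  refine exists_hit_grid β f hd (gen_ne_zero hL β f hf fun c => ?_)
  rcases h c with h1 | h1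
  · exact Or.inl h1
  · right
    have h2 : measure (block β c) f < Cardinal.aleph0 :=
      lt_of_le_of_lt ((self_le_add_right _ _).trans h1) (Cardinal.natCast_lt_aleph0)
    obtain ⟨t, ht⟩ := Cardinal.lt_aleph0.1 h2
    refine ⟨t, ht.le, ?_⟩
    rw [ht] at h1
    exact_mod_cast h1

/-- The numbers for `s ≤ c³` and every threshold. -/
theorem card_cube (n s r d c : ℕ) (hc : 1 ≤ c) (hs : s ≤ c ^ 3) :
    (hitSet n (min c r ^ 2 + 3 * c) (2 * s / c + 1) (s * d * (min c r ^ 2 + 3 * c))).card ≤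
      ((n + 1) * (4 * s * d * c ^ 2 + 1)) ^ (3 * c ^ 2 + 3 * c + 1) := by
  have h1 : min c r ^ 2 ≤ c ^ 2 := Nat.pow_le_pow_left (min_le_left _ _) 2
  have h2 : 2 * s / c ≤ 2 * c ^ 2 := by
    refine Nat.div_le_of_le_mul ?_
    nlinarith [hs, pow_succ c 2]
  have h3 : c ≤ c ^ 2 := Nat.le_self_pow (by norm_num) c
  refine (card_hitSet_le _ _ _ _).trans ?_
  rw [mul_pow]
  have hD : s * d * (min c r ^ 2 + 3 * c) + 1 ≤ 4 * s * d * c ^ 2 + 1 := by
    have : min c r ^ 2 + 3 * c ≤ 4 * c ^ 2 := by omega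
    calc s * d * (min c r ^ 2 + 3 * c) + 1 ≤ s * d * (4 * c ^ 2) + 1 := by gcongr
      _ = 4 * s * d * c ^ 2 + 1 := by ring
  refine Nat.mul_le_mul ?_ ?_
  · exact Nat.pow_le_pow_right (by omega) (by nlinarith)
  · refine (Nat.pow_le_pow_left hD _).trans (Nat.pow_le_pow_right (by omega) (by omega))

/-- The numbers for `s ≤ c²` and small thresholds. -/
theorem card_square (n s r d c : ℕ) (hc : 1 ≤ c) (hs : s ≤ c ^ 2) :
    (hitSet n (min c r ^ 2 + 3 * c) (2 * s / c + 1) (s * d * (min c r ^ 2 + 3 * c))).card ≤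
      ((n + 1) * (s * d * (r ^ 2 + 3 * c) + 1)) ^ (r ^ 2 + 5 * c + 1) := by
  have h0 : min c r ^ 2 ≤ r ^ 2 := Nat.pow_le_pow_left (min_le_right _ _) 2
  have h2 : 2 * s / c ≤ 2 * c := by
    refine Nat.div_le_of_le_mul ?_
    nlinarith [hs]
  refine (card_hitSet_le _ _ _ _).trans ?_
  rw [mul_pow]
  have hD : s * d * (min c r ^ 2 + 3 * c) + 1 ≤ s * d * (r ^ 2 + 3 * c) + 1 := by
    gcongr
  refine Nat.mul_le_mul ?_ ?_
  · exact Nat.pow_le_pow_right (by omega) (by omega)
  · refine (Nat.pow_le_pow_left hD _).trans (Nat.pow_le_pow_right (by omega) (by omega))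

end Pool.Agent.H14.KG
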