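import Pool.Agent.H14.KG.Def

/-! # Mixed matrices: definitions

`P_none(y) + ∑ i, x_i P_i(y)`, where the `P_i` will have rank at most two; local search in the
variables `x_i` as in `MP_966f71_lc.RankTwoLocalSearch`. -/

set_option autoImplicit false

universe u

namespace Pool.Agent.H14.KG

/-- The matrix `P_none(y) + ∑ i, x_i P_i(y)` of polynomials in the variables `y_k` (`Sum.inl k`)
and `x_i` (`Sum.inr i`). -/
noncomputable def mixedMatrix {F : Type u} [Field F] {n N a b : ℕ}
    (P : Option (Fin N) → Matrix (Fin a) (Fin b) (MvPolynomial (Fin n) F)) :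
    Matrix (Fin a) (Fin b) (MvPolynomial (Fin n ⊕ Fin N) F) :=
  (P none).map (MvPolynomial.rename Sum.inl) +
    ∑ i, (MvPolynomial.X (Sum.inr i) : MvPolynomial (Fin n ⊕ Fin N) F) •
      (P (some i)).map (MvPolynomial.rename Sum.inl)

/-- The matrix `C_none + ∑ i, x_i C_i` of polynomials in the variables `x_i`. -/
noncomputable def linMat {F : Type u} [Field F] {N a b : ℕ}
    (C : Option (Fin N) → Matrix (Fin a) (Fin b) F) :
    Matrix (Fin a) (Fin b) (MvPolynomial (Fin N) F) :=
  (C none).map MvPolynomial.C + ∑ i, (MvPolynomial.X i : MvPolynomial (Fin N) F) •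
    (C (some i)).map MvPolynomial.C

/-- The number of occurrences of `y_k` in `∑ c, φ_c(y) (A_{c,none} + ∑ i, x_i A_{c,i})`, a leaf
`p(y_k)` of `φ_c` counted as often as the rank over `F(x)` of its coefficient matrix. -/
noncomputable def occX {F : Type u} [Field F] {n N a b : ℕ} {κ : Type} [Fintype κ]
    (A : κ → Option (Fin N) → Matrix (Fin a) (Fin b) F) (φ : κ → Formula F n) (k : Fin n) : ℕ :=
  ∑ c, symRank (linMat (A c)) * (φ c).leaves k

/-- The matrix `P + ∑ x_i B_i` over `F`. -/
def lin {F : Type u} [Field F] {N a b : ℕ} (P : Matrix (Fin a) (Fin b) F)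
    (B : Fin N → Matrix (Fin a) (Fin b) F) (x : Fin N → F) : Matrix (Fin a) (Fin b) F :=
  P + ∑ i, x i • B i

/-- `B_i`, and the zero matrix for `none`. -/
def opt {F : Type u} [Field F] {N a b : ℕ} (B : Fin N → Matrix (Fin a) (Fin b) F) :
    Option (Fin N) → Matrix (Fin a) (Fin b) F
  | none => 0
  | some i => B i

/-- The potential of the point `x`: the sum of the ranks of the `(N + 1) ^ 4` matrices
`[[P + ∑ x_i B_i, B_s, B_s'], [B_r, 0, 0], [B_r', 0, 0]]`, each of `r, r', s, s'` an index or
`none`. -/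
noncomputable def potential {F : Type u} [Field F] {N a b : ℕ} (P : Matrix (Fin a) (Fin b) F)
    (B : Fin N → Matrix (Fin a) (Fin b) F) (x : Fin N → F) : ℕ :=
  ∑ J : (Option (Fin N) × Option (Fin N)) × (Option (Fin N) × Option (Fin N)),
    (Matrix.fromBlocks (lin P B x) (Matrix.fromCols (opt B J.2.1) (opt B J.2.2))
      (Matrix.fromRows (opt B J.1.1) (opt B J.1.2)) 0).rank

/-- `z` is a point of `T ^ N` that differs from `x` in at most five coordinates and has a larger
potential. -/
def Improves {F : Type u} [Field F] {N a b : ℕ} (P : Matrix (Fin a) (Fin b) F)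
    (B : Fin N → Matrix (Fin a) (Fin b) F) (T : Finset F) (x z : Fin N → F) : Prop :=
  (∀ i, z i ∈ T) ∧ (∃ S : Finset (Fin N), S.card ≤ 5 ∧ ∀ i, i ∉ S → z i = x i) ∧
    potential P B x < potential P B z

/-- `x ∈ T ^ N` is stuck: no improvement is possible. -/
def Stuck {F : Type u} [Field F] {N a b : ℕ} (P : Matrix (Fin a) (Fin b) F)
    (B : Fin N → Matrix (Fin a) (Fin b) F) (T : Finset F) (x : Fin N → F) : Prop :=
  (∀ i, x i ∈ T) ∧ ∀ z, ¬ Improves P B T x z

end Pool.Agent.H14.KG
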