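import Pool.Agent.H14.KG.Main
import Pool.Agent.H14.KG.MixDef
import Pool.Agent.H18.R2.LocalGlobal
import Pool.Agent.H18.R2.Grid

/-! # Mixed pencils: linear variables with coefficient matrices of rank at most two are free -/

set_option autoImplicit false

universe u

namespace Pool.Agent.H14.KG

open Matrix

section local_search

variable {F : Type u} [Field F] {N a b : ℕ}

private theorem mx_opt_eq (B : Fin N → Matrix (Fin a) (Fin b) F) :
    opt B = Pool.Agent.H18.R2.opt B := by
  funext o
  cases o <;> rfl

private theorem mx_potential_eq (P : Matrix (Fin a) (Fin b) F)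
    (B : Fin N → Matrix (Fin a) (Fin b) F) (x : Fin N → F) :
    potential P B x = Pool.Agent.H18.R2.Phi P B x := by
  simp only [potential, mx_opt_eq]
  rfl

private theorem mx_potential_le (P : Matrix (Fin a) (Fin b) F)
    (B : Fin N → Matrix (Fin a) (Fin b) F) (x : Fin N → F) :
    potential P B x ≤ 3 * a * (N + 1) ^ 4 := by
  rw [mx_potential_eq]
  simpa using Pool.Agent.H18.R2.Phi_le P B x

/-- Stuck points have the largest rank. -/
theorem rank_le_of_stuck [Infinite F] (P : Matrix (Fin a) (Fin b) F)
    (B : Fin N → Matrix (Fin a) (Fin b) F) (hB : ∀ i, (B i).rank ≤ 2) (T : Finset F)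
    (hT : 3 * a * (N + 1) ^ 4 < T.card) (x : Fin N → F) (hx : Stuck P B T x) (z : Fin N → F) :
    (lin P B z).rank ≤ (lin P B x).rank := by
  change (Pool.Agent.H18.R2.lin P B z).rank ≤ (Pool.Agent.H18.R2.lin P B x).rank
  apply Pool.Agent.H18.R2.local_global P B hB x
  intro S x' hS hx' r1 r2 s1 s2
  refine Pool.Agent.H18.R2.grid_local P B T (by simpa using hT) x 5 ?_ S x' hS hx' r1 r2 s1 s2
  intro S' c hS' hc hcT
  rw [← mx_potential_eq, ← mx_potential_eq]
  by_contra hlt
  push Not at hlt
  refine hx.2 c ⟨fun i => ?_, ⟨S', hS', hc⟩, hlt⟩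
  by_cases hi : i ∈ S'
  · exact hcT i hi
  · rw [hc i hi]
    exact hx.1 i

/-- Stuck points exist. -/
theorem exists_stuck (P : Matrix (Fin a) (Fin b) F) (B : Fin N → Matrix (Fin a) (Fin b) F)
    (T : Finset F) (hT : 0 < T.card) : ∃ x : Fin N → F, Stuck P B T x := by
  classical
  obtain ⟨t, ht⟩ := Finset.card_pos.1 hT
  obtain ⟨x, hx, hmax⟩ := Finset.exists_max_image (Fintype.piFinset fun _ : Fin N => T)
    (potential P B) ⟨fun _ => t, by simpa using fun _ => ht⟩
  refine ⟨x, by simpa using hx, fun c hc => ?_⟩
  have h1 := hmax c (by simpa using hc.1)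
  have h2 := hc.2.2
  omega

/-- Chains of improvements are short. -/
theorem chain_le (P : Matrix (Fin a) (Fin b) F) (B : Fin N → Matrix (Fin a) (Fin b) F)
    (T : Finset F) (k : ℕ) (x : ℕ → Fin N → F)
    (hx : ∀ j < k, Improves P B T (x j) (x (j + 1))) : k ≤ 3 * a * (N + 1) ^ 4 := by
  have h1 : ∀ j ≤ k, j ≤ potential P B (x j) := by
    intro j
    induction j with
    | zero => intro _; exact Nat.zero_le _
    | succ j ih =>
      intro hj
      have h3 := ih (by omega)
      have h4 := (hx j (by omega)).2.2
      omega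
  exact (h1 k le_rfl).trans (mx_potential_le _ _ _)

end local_search

section base_change

variable {F : Type u} [Field F] {n : ℕ}

/-- A formula over a larger field. -/
noncomputable def Formula.mapF {K : Type u} [Field K] (f : F →+* K) :
    Formula F n → Formula K n
  | .const c => .const (f c)
  | .leaf i p => .leaf i (p.map f)
  | .add φ ψ => .add (φ.mapF f) (ψ.mapF f)
  | .mul φ ψ => .mul (φ.mapF f) (ψ.mapF f)

theorem Formula.mapF_leaves {K : Type u} [Field K] (f : F →+* K) (i : Fin n)
    (φ : Formula F n) : (φ.mapF f).leaves i = φ.leaves i := by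
  induction φ with
  | const c => rfl
  | leaf j p => rfl
  | add φ ψ h1 h2 => simp only [Formula.mapF, Formula.leaves, h1, h2]
  | mul φ ψ h1 h2 => simp only [Formula.mapF, Formula.leaves, h1, h2]

theorem Formula.mapF_leafDeg {K : Type u} [Field K] (f : F →+* K) (φ : Formula F n) :
    (φ.mapF f).leafDeg ≤ φ.leafDeg := by
  induction φ with
  | const c => exact le_rfl
  | leaf j p => exact Polynomial.natDegree_map_le
  | add φ ψ h1 h2 => exact max_le_max h1 h2
  | mul φ ψ h1 h2 => exact max_le_max h1 h2

theorem Formula.mapF_poly {K : Type u} [Field K] (f : F →+* K) (φ : Formula F n) :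
    (φ.mapF f).poly = MvPolynomial.map f φ.poly := by
  induction φ with
  | const c => simp [Formula.mapF, Formula.poly]
  | leaf j p =>
    simp only [Formula.mapF, Formula.poly]
    rw [Polynomial.aeval_def, Polynomial.aeval_def, Polynomial.eval₂_map,
      Polynomial.hom_eval₂, MvPolynomial.map_X]
    congr 1
    ext c
    simp
  | add φ ψ h1 h2 => simp only [Formula.mapF, Formula.poly, h1, h2, map_add]
  | mul φ ψ h1 h2 => simp only [Formula.mapF, Formula.poly, h1, h2, map_mul]

end base_change

section mixed

variable {F : Type u} [Field F] {n N a b : ℕ} {κ : Type} [Fintype κ]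

/-- The substitution `y = h`, `x = z` in a mixed matrix. -/
theorem mixedMatrix_eval (P : Option (Fin N) → Matrix (Fin a) (Fin b) (MvPolynomial (Fin n) F))
    (h : Fin n → ℕ) (z : Fin N → F) :
    (mixedMatrix P).map (MvPolynomial.eval (Sum.elim (fun k => ((h k : ℕ) : F)) z)) =
      lin (valAt (P none) h) (fun i => valAt (P (some i)) h) z := by
  refine Matrix.ext fun i j => ?_
  simp only [mixedMatrix, lin, valAt, Matrix.map_apply, Matrix.add_apply, Matrix.sum_apply,
    Matrix.smul_apply, smul_eq_mul, map_add, map_sum, map_mul, MvPolynomial.eval_X,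
    MvPolynomial.eval_rename, Sum.elim_inr]
  rfl

/-- The ring homomorphism `F[y, x] → F(x)[y]`. -/
private noncomputable def mxHom (F : Type u) [Field F] (n N : ℕ) :
    MvPolynomial (Fin n ⊕ Fin N) F →+*
      MvPolynomial (Fin n) (FractionRing (MvPolynomial (Fin N) F)) :=
  (MvPolynomial.map (algebraMap (MvPolynomial (Fin N) F)
    (FractionRing (MvPolynomial (Fin N) F)))).comp
      (MvPolynomial.sumRingEquiv F (Fin n) (Fin N)).toRingHom

private theorem mxHom_injective : Function.Injective (mxHom F n N) := by
  refine (MvPolynomial.map_injective _ (IsFractionRing.injective _ _)).comp ?_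
  exact (MvPolynomial.sumRingEquiv F (Fin n) (Fin N)).injective

/-- The embedding `F → F(x)`. -/
private noncomputable def mxCoe (F : Type u) [Field F] (N : ℕ) :
    F →+* FractionRing (MvPolynomial (Fin N) F) :=
  (algebraMap (MvPolynomial (Fin N) F) (FractionRing (MvPolynomial (Fin N) F))).comp
    MvPolynomial.C

private theorem mxHom_C (c : F) : mxHom F n N (MvPolynomial.C c) =
    MvPolynomial.C (mxCoe F N c) := by
  simp [mxHom, mxCoe, MvPolynomial.sumRingEquiv_C]

private theorem mxHom_inl (k : Fin n) : mxHom F n N (MvPolynomial.X (Sum.inl k)) =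
    MvPolynomial.X k := by
  simp [mxHom, MvPolynomial.sumRingEquiv_X_inl]

private theorem mxHom_inr (i : Fin N) : mxHom F n N (MvPolynomial.X (Sum.inr i)) =
    MvPolynomial.C (algebraMap (MvPolynomial (Fin N) F) (FractionRing (MvPolynomial (Fin N) F))
      (MvPolynomial.X i)) := by
  simp [mxHom, MvPolynomial.sumRingEquiv_X_inr]

private theorem mxHom_rename (p : MvPolynomial (Fin n) F) :
    mxHom F n N (MvPolynomial.rename Sum.inl p) = MvPolynomial.map (mxCoe F N) p := by
  have h1 : (mxHom F n N).comp
      (MvPolynomial.rename Sum.inl : MvPolynomial (Fin n) F →ₐ[F] _).toRingHom =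
      MvPolynomial.map (mxCoe F N) := by
    apply MvPolynomial.ringHom_ext
    · intro c
      simp [mxHom_C]
    · intro k
      simp [mxHom_inl]
  exact congrArg (fun χ : MvPolynomial (Fin n) F →+* _ => χ p) h1

/-- The values at `y = h`. -/
private theorem mxHom_eval (h : Fin n → ℕ) (g : MvPolynomial (Fin n ⊕ Fin N) F) :
    MvPolynomial.eval (fun k => ((h k : ℕ) : FractionRing (MvPolynomial (Fin N) F)))
      (mxHom F n N g) =
    algebraMap (MvPolynomial (Fin N) F) (FractionRing (MvPolynomial (Fin N) F))
      (MvPolynomial.aeval (Sum.elim (fun k => MvPolynomial.C ((h k : ℕ) : F))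
        MvPolynomial.X) g) := by
  have h1 : (MvPolynomial.eval
        (fun k => ((h k : ℕ) : FractionRing (MvPolynomial (Fin N) F)))).comp (mxHom F n N) =
      (algebraMap (MvPolynomial (Fin N) F) (FractionRing (MvPolynomial (Fin N) F))).comp
        (MvPolynomial.aeval (Sum.elim (fun k => MvPolynomial.C ((h k : ℕ) : F))
          MvPolynomial.X) : MvPolynomial (Fin n ⊕ Fin N) F →ₐ[F] _).toRingHom := by
    apply MvPolynomial.ringHom_ext
    · intro c
      simp [mxHom_C, mxCoe]
    · rintro (k | i)
      · simp [mxHom_inl]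
      · simp [mxHom_inr]
  exact congrArg (fun χ : MvPolynomial (Fin n ⊕ Fin N) F →+* _ => χ g) h1

private theorem mx_pencil (A₀ : Option (Fin N) → Matrix (Fin a) (Fin b) F)
    (A : κ → Option (Fin N) → Matrix (Fin a) (Fin b) F) (φ : κ → Formula F n) :
    (mixedMatrix fun j => pencil (A₀ j) (fun c => A c j) φ).map (mxHom F n N) =
      pencil ((linMat A₀).map (algebraMap (MvPolynomial (Fin N) F)
          (FractionRing (MvPolynomial (Fin N) F))))
        (fun c => (linMat (A c)).map (algebraMap (MvPolynomial (Fin N) F)
          (FractionRing (MvPolynomial (Fin N) F)))) (fun c => (φ c).mapF (mxCoe F N)) := by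
  refine Matrix.ext fun i j => ?_
  simp only [mixedMatrix, linMat, pencil, Matrix.map_apply, Matrix.add_apply, Matrix.sum_apply,
    Matrix.smul_apply, smul_eq_mul, map_add, map_sum, map_mul, mxHom_rename, mxHom_inr,
    MvPolynomial.map_C, Formula.mapF_poly, mul_add, Finset.mul_sum, Finset.sum_add_distrib]
  have h1 : ∀ c : F, (MvPolynomial.C (mxCoe F N c) :
      MvPolynomial (Fin n) (FractionRing (MvPolynomial (Fin N) F))) =
      MvPolynomial.C (algebraMap (MvPolynomial (Fin N) F)
        (FractionRing (MvPolynomial (Fin N) F)) (MvPolynomial.C c)) := fun c => rfl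
  simp only [h1]
  rw [Finset.sum_comm (s := (Finset.univ : Finset (Fin N)))]
  have h2 : ∀ (c : κ) (l : Fin N),
      (MvPolynomial.C (algebraMap (MvPolynomial (Fin N) F)
        (FractionRing (MvPolynomial (Fin N) F)) (MvPolynomial.X l)) :
          MvPolynomial (Fin n) (FractionRing (MvPolynomial (Fin N) F))) *
        (MvPolynomial.map (mxCoe F N) (φ c).poly * MvPolynomial.C (algebraMap
          (MvPolynomial (Fin N) F) (FractionRing (MvPolynomial (Fin N) F))
          (MvPolynomial.C (A c (some l) i j)))) =
      MvPolynomial.map (mxCoe F N) (φ c).poly * (MvPolynomial.C (algebraMap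
        (MvPolynomial (Fin N) F) (FractionRing (MvPolynomial (Fin N) F)) (MvPolynomial.X l)) *
        MvPolynomial.C (algebraMap (MvPolynomial (Fin N) F)
          (FractionRing (MvPolynomial (Fin N) F)) (MvPolynomial.C (A c (some l) i j)))) :=
    fun c l => by ring
  simp only [h2]
  abel

/-- The matrix `M(h, x)` over `F[x]`. -/
theorem mixedMatrix_aeval (P : Option (Fin N) → Matrix (Fin a) (Fin b) (MvPolynomial (Fin n) F))
    (h : Fin n → ℕ) :
    (mixedMatrix P).map (MvPolynomial.aeval (Sum.elim (fun k => MvPolynomial.C ((h k : ℕ) : F))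
      (MvPolynomial.X : Fin N → MvPolynomial (Fin N) F))) =
      linMat (fun j => valAt (P j) h) := by
  refine Matrix.ext fun i j => ?_
  simp only [mixedMatrix, linMat, valAt, Matrix.map_apply, Matrix.add_apply, Matrix.sum_apply,
    Matrix.smul_apply, smul_eq_mul, map_add, map_sum, map_mul, MvPolynomial.aeval_X,
    Sum.elim_inr, MvPolynomial.aeval_rename]
  have h1 : ∀ p : MvPolynomial (Fin n) F,
      MvPolynomial.aeval ((Sum.elim (fun k => MvPolynomial.C ((h k : ℕ) : F))
        (MvPolynomial.X : Fin N → MvPolynomial (Fin N) F)) ∘ Sum.inl) p =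
      MvPolynomial.C (MvPolynomial.eval (fun k => ((h k : ℕ) : F)) p) := by
    intro p
    have h2 : ((MvPolynomial.aeval ((Sum.elim (fun k => MvPolynomial.C ((h k : ℕ) : F))
        (MvPolynomial.X : Fin N → MvPolynomial (Fin N) F)) ∘ Sum.inl) :
          MvPolynomial (Fin n) F →ₐ[F] MvPolynomial (Fin N) F)).toRingHom =
        (MvPolynomial.C : F →+* MvPolynomial (Fin N) F).comp
          (MvPolynomial.eval (fun k => ((h k : ℕ) : F))) := by
      apply MvPolynomial.ringHom_ext
      · intro c
        simp
      · intro k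
        simp
    exact congrArg (fun χ : MvPolynomial (Fin n) F →+* MvPolynomial (Fin N) F => χ p) h2
  simp only [h1]

/-- **Mixed matrices, block form.**  The rank over `F(y, x)` is less than `r` if and only if for
every point `h` of the grid the rank of `M(h, x)` over `F(x)` is less than `r`. -/
theorem mixed_block [CharZero F] {m s r d L : ℕ} (hL : 2 ≤ L)
    (A₀ : Option (Fin N) → Matrix (Fin a) (Fin b) F)
    (A : κ → Option (Fin N) → Matrix (Fin a) (Fin b) F) (φ : κ → Formula F n)
    (β : Fin n → Fin m) (hβ : Serves (fun k => max 1 (occX A φ k)) r L β)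
    (hs : ∑ k, occX A φ k ≤ s) (hd : ∀ c, (φ c).leafDeg ≤ d) :
    symRank (mixedMatrix fun j => pencil (A₀ j) (fun c => A c j) φ) < r ↔
      ∀ h ∈ grid L β (s * d * L),
        symRank (linMat fun j => valAt (pencil (A₀ j) (fun c => A c j) φ) h) < r := by
  classical
  set P : Option (Fin N) → Matrix (Fin a) (Fin b) (MvPolynomial (Fin n) F) :=
    fun j => pencil (A₀ j) (fun c => A c j) φ with hP
  constructor
  · intro h1 h _
    by_contra hcon
    push Not at hcon
    obtain ⟨e, e', hne⟩ := exists_minor _ _ hcon
    refine absurd h1 (not_lt.mpr (le_symRank_of_minor _ e e' ?_))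
    intro h0
    apply hne
    change ((linMat fun j => valAt (P j) h).submatrix e e').det = 0
    rw [← mixedMatrix_aeval]
    have h3 := AlgHom.map_det (MvPolynomial.aeval (Sum.elim
      (fun k => MvPolynomial.C ((h k : ℕ) : F))
      (MvPolynomial.X : Fin N → MvPolynomial (Fin N) F))) ((mixedMatrix P).submatrix e e')
    rw [h0, map_zero] at h3
    exact h3.symm
  · intro h1
    by_contra hcon
    push Not at hcon
    obtain ⟨e, e', hne⟩ := exists_minor _ _ hcon
    set M := mixedMatrix P with hM
    have h2 : (((M.map (mxHom F n N)).submatrix e e').det) ≠ 0 := by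
      have h3 := RingHom.map_det (mxHom F n N) (M.submatrix e e')
      intro h0
      apply hne
      apply mxHom_injective (F := F) (n := n) (N := N)
      rw [map_zero, h3]
      exact h0
    have hMp : M.map (mxHom F n N) = pencil ((linMat A₀).map (algebraMap (MvPolynomial (Fin N) F)
          (FractionRing (MvPolynomial (Fin N) F))))
        (fun c => (linMat (A c)).map (algebraMap (MvPolynomial (Fin N) F)
          (FractionRing (MvPolynomial (Fin N) F)))) (fun c => (φ c).mapF (mxCoe F N)) :=
      mx_pencil A₀ A φ
    rw [hMp] at h2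
    have : CharZero (FractionRing (MvPolynomial (Fin N) F)) :=
      charZero_of_injective_ringHom (mxCoe F N).injective
    have hocc : ∀ k, occ (fun c => (linMat (A c)).map (algebraMap (MvPolynomial (Fin N) F)
          (FractionRing (MvPolynomial (Fin N) F)))) (fun c => (φ c).mapF (mxCoe F N)) k =
        occX A φ k := by
      intro k
      refine Finset.sum_congr rfl fun c _ => ?_
      rw [Formula.mapF_leaves]
      rfl
    obtain ⟨h, hh, hne2⟩ := minor_hit_block hL _ _ _ β (by simpa only [hocc] using hβ)
      (by simpa only [hocc] using hs) (fun c =>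
        (Formula.mapF_leafDeg _ _).trans (hd c)) e e' h2
    have h6 := h1 h hh
    -- the minor at `y = h` is a nonzero polynomial in `x`
    have h4 : MvPolynomial.aeval (Sum.elim (fun k => MvPolynomial.C ((h k : ℕ) : F))
        (MvPolynomial.X : Fin N → MvPolynomial (Fin N) F)) (M.submatrix e e').det ≠ 0 := by
      intro h0
      apply hne2
      have h3 := RingHom.map_det (mxHom F n N) (M.submatrix e e')
      have h5 : ((M.map (mxHom F n N)).submatrix e e').det =
          mxHom F n N (M.submatrix e e').det := h3.symm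
      rw [← hMp, h5, mxHom_eval, h0, map_zero]
    refine absurd h6 (not_lt.mpr (le_symRank_of_minor _ e e' ?_))
    change ((linMat fun j => valAt (P j) h).submatrix e e').det ≠ 0
    rw [← mixedMatrix_aeval]
    have h3 := AlgHom.map_det (MvPolynomial.aeval (Sum.elim
      (fun k => MvPolynomial.C ((h k : ℕ) : F))
      (MvPolynomial.X : Fin N → MvPolynomial (Fin N) F))) (M.submatrix e e')
    rw [h3] at h4
    exact h4

end mixed

section linear

variable {F : Type u} [Field F] {N a b : ℕ}

theorem linMat_eval (C : Option (Fin N) → Matrix (Fin a) (Fin b) F) (z : Fin N → F) :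
    (linMat C).map (MvPolynomial.eval z) = lin (C none) (fun i => C (some i)) z := by
  refine Matrix.ext fun i j => ?_
  simp only [linMat, lin, Matrix.map_apply, Matrix.add_apply, Matrix.sum_apply,
    Matrix.smul_apply, smul_eq_mul, map_add, map_sum, map_mul, MvPolynomial.eval_X,
    MvPolynomial.eval_C]

/-- At a stuck point the rank is the rank over `F(x)`. -/
theorem symRank_eq_of_stuck [Infinite F] (C : Option (Fin N) → Matrix (Fin a) (Fin b) F)
    (hC : ∀ i, (C (some i)).rank ≤ 2) (T : Finset F) (hT : 3 * a * (N + 1) ^ 4 < T.card)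
    (z : Fin N → F) (hz : Stuck (C none) (fun i => C (some i)) T z) :
    symRank (linMat C) = (lin (C none) (fun i => C (some i)) z).rank := by
  apply le_antisymm
  · obtain ⟨e, e', hne⟩ := exists_minor (linMat C) _ le_rfl
    obtain ⟨x, hx⟩ : ∃ x : Fin N → F,
        MvPolynomial.eval x ((linMat C).submatrix e e').det ≠ 0 := by
      by_contra hcon
      push Not at hcon
      exact hne (MvPolynomial.funext fun x => by rw [hcon x, map_zero])
    refine le_trans ?_ (rank_le_of_stuck _ _ hC T hT z hz x)
    rw [← linMat_eval]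
    refine le_rank_of_minor _ e e' ?_
    rw [RingHom.map_det] at hx
    exact hx
  · rw [← linMat_eval]
    exact rank_eval_le _ _

end linear

end Pool.Agent.H14.KG
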