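import Pool.Agent.H14.KG.Def

/-! # Symbolic rank and values -/

set_option autoImplicit false

universe u

namespace Pool.Agent.H14.KG

private theorem rk_cols {K : Type u} [Field K] {a b : ℕ} (A : Matrix (Fin a) (Fin b) K) {r : ℕ}
    (hr : A.rank = r) : ∃ e : Fin r → Fin b, LinearIndependent K (fun j => A.col (e j)) := by
  rw [Matrix.rank_eq_finrank_span_cols] at hr
  subst hr
  obtain ⟨g, hg, -, hli⟩ := Submodule.exists_fun_fin_finrank_span_eq K (Set.range A.col)
  choose e he using hg
  refine ⟨e, ?_⟩
  have h1 : (fun j => A.col (e j)) = g := funext he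
  rw [h1]
  exact hli

private theorem rk_minor {K : Type u} [Field K] {a b : ℕ} (A : Matrix (Fin a) (Fin b) K) {r : ℕ}
    (hr : A.rank = r) : ∃ (e : Fin r → Fin a) (e' : Fin r → Fin b), (A.submatrix e e').det ≠ 0 := by
  obtain ⟨e', he'⟩ := rk_cols A hr
  have h1 : ((A.submatrix id e').transpose).rank = r := by
    have h2 : LinearIndependent K ((A.submatrix id e').transpose).row := he'
    rw [h2.rank_matrix, Fintype.card_fin]
  obtain ⟨e, he⟩ := rk_cols _ h1
  refine ⟨e, e', ?_⟩
  have h3 : LinearIndependent K (A.submatrix e e').row := he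
  rw [Matrix.linearIndependent_rows_iff_isUnit, Matrix.isUnit_iff_isUnit_det] at h3
  exact h3.ne_zero

private theorem rk_le {K : Type u} [Field K] {a b : ℕ} (A : Matrix (Fin a) (Fin b) K) {r : ℕ}
    (e : Fin r → Fin a) (e' : Fin r → Fin b) (h : (A.submatrix e e').det ≠ 0) : r ≤ A.rank := by
  have h1 : IsUnit (A.submatrix e e') := by
    rw [Matrix.isUnit_iff_isUnit_det]
    exact h.isUnit
  have h2 := Matrix.rank_of_isUnit _ h1
  rw [Fintype.card_fin] at h2
  have h3 := Matrix.rank_submatrix_le A e e'
  omega

/-- If every nonzero minor is nonzero at some point of `H`, then the symbolic rank is the maximum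
of the ranks at the points of `H`. -/
theorem symRank_eq_sup {F : Type u} [Field F] {n a b : ℕ}
    (M : Matrix (Fin a) (Fin b) (MvPolynomial (Fin n) F)) (H : Finset (Fin n → ℕ))
    (h : ∀ (r : ℕ) (e : Fin r → Fin a) (e' : Fin r → Fin b), r ≤ symRank M →
      (M.submatrix e e').det ≠ 0 →
        ∃ h ∈ H, MvPolynomial.eval (fun i => ((h i : ℕ) : F)) (M.submatrix e e').det ≠ 0) :
    symRank M = H.sup fun h => (valAt M h).rank := by
  classical
  apply le_antisymm
  · obtain ⟨e, e', hdet⟩ := rk_minor (M.map (algebraMap (MvPolynomial (Fin n) F)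
      (FractionRing (MvPolynomial (Fin n) F)))) (r := symRank M) rfl
    have h1 : (M.submatrix e e').det ≠ 0 := by
      intro h0
      apply hdet
      have h2 := RingHom.map_det (algebraMap (MvPolynomial (Fin n) F)
        (FractionRing (MvPolynomial (Fin n) F))) (M.submatrix e e')
      rw [h0, map_zero] at h2
      exact h2.symm
    obtain ⟨x, hx, hx0⟩ := h _ e e' le_rfl h1
    refine le_trans ?_ (Finset.le_sup (f := fun h => (valAt M h).rank) hx)
    refine rk_le _ e e' ?_
    rw [RingHom.map_det] at hx0
    exact hx0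
  · refine Finset.sup_le fun x hx => ?_
    obtain ⟨e, e', hdet⟩ := rk_minor (valAt M x) (r := (valAt M x).rank) rfl
    refine rk_le _ e e' ?_
    have h1 : (M.submatrix e e').det ≠ 0 := by
      intro h0
      apply hdet
      have h2 := RingHom.map_det (MvPolynomial.eval fun i => ((x i : ℕ) : F)) (M.submatrix e e')
      rw [h0, map_zero] at h2
      exact h2.symm
    have h2 := RingHom.map_det (algebraMap (MvPolynomial (Fin n) F)
        (FractionRing (MvPolynomial (Fin n) F))) (M.submatrix e e')
    intro h0
    apply h1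
    have h3 : algebraMap (MvPolynomial (Fin n) F) (FractionRing (MvPolynomial (Fin n) F))
        (M.submatrix e e').det = 0 := by
      rw [h2]
      exact h0
    exact (map_eq_zero_iff _ (IsFractionRing.injective (MvPolynomial (Fin n) F)
      (FractionRing (MvPolynomial (Fin n) F)))).1 h3

end Pool.Agent.H14.KG
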